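import Pool.Agent.MP_5d9b3c_ag.P3D.SpecX
import Pool.Agent.MP_5d9b3c_ag.P3K.RFace
import Pool.Agent.MP_ee8c61_ag.M3BK.RFl

/-! Faces of boxes of fixed points. -/

namespace Pool.Agent.MP_5d9b3c_ag.P3D

open MP_ee8c61_ag M3 M3RESID M3BK P3 P3K P3T Set
open Pool.Agent.MP_96693b_ag.RS (Loc)
open Pool.Agent.MP_96693b_ag

variable {L k : Type} [Field L] [Algebra ℂ L] [Field k] [Algebra ℂ k] {n : ℕ}

theorem co_eq {C C' : Co L n} (h : ∀ i, C.z i = C'.z i) : C = C' :=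
  co_ext h fun i => sub_eq_zero.1 (C.span _ fun l => by
    rw [Derivation.sub_apply, C.dual, h, C'.dual, sub_self])

section Gal

variable {F : Type} [Field F] [Algebra F ℂ] {A : GA F L} {B : GA F k} {P : Pl L k}

theorem fixL_of {x : Loc L} (h : ∀ σ, ∀ g ∈ x.O, A.ρ σ g ∈ x.O) : A.FixL x := fun σ =>
  RS.Loc.ext' (SetLike.ext ((A.si σ).all.2 fun g =>
    (A.si σ).e_mem_sa.trans (GA.Stb.iff (A := A) (S := x.O) h σ).symm))

theorem fixL_pr (h : A.Cpt B P) {x : Loc L} {x' : Loc k} (hx : A.FixL x) (hp : Pr P x x') :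
    B.FixL x' := fixL_of fun σ y hy => by
  obtain ⟨g, hg, rfl⟩ := (hp.2 y).1 hy
  rw [h.2 σ g (hp.1 g hg)]
  exact hp.mem ((hx.mem σ).2 hg)

variable [Algebra.IsAlgebraic F ℂ]

theorem fix_le {x : Loc L} {O : Subalgebra ℂ L} (hx : A.FixL x)
    (h : ∀ g ∈ x.O, g ∈ A.fix → g ∈ O) : x.O ≤ O :=
  A.sa.desc_le (W := x.O.toSubmodule) (W' := O.toSubmodule) (fun σ _ hg => (hx.mem σ).2 hg) h

/-- A fixed function at a point of the divisor lifts to a fixed function. -/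
theorem lift_pr (h : A.Cpt B P) {x : Loc L} {x' : Loc k} (hx : A.FixL x) (hp : Pr P x x') {y : k}
    (hy : y ∈ x'.O) (hf : y ∈ B.fix) : ∃ g ∈ x.O, g ∈ A.fix ∧ P.π g = y := by
  obtain ⟨g, hg, rfl⟩ := (hp.2 y).1 hy
  obtain ⟨g', h1, h2, h3⟩ := A.sa.affine (x.O.toSubmodule ⊓ P3G.FS P.o 1) (x := g) fun σ => by
    have a := (hx.mem σ).2 hg
    refine ⟨sub_mem a hg, (P.ker _ (hp.1 _ (sub_mem a hg))).1 ?_⟩
    rw [Pl.π_sub (hp.1 _ a) (hp.1 _ hg), ← h.2 σ g (hp.1 g hg), hf σ, sub_self]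
  have a : g' ∈ x.O := by simpa using add_mem (show g' - g ∈ x.O from h2) hg
  exact ⟨g', a, h1, sub_eq_zero.1 ((Pl.π_sub (hp.1 _ a) (hp.1 _ hg)).symm.trans (P.π_F1 h3))⟩

/-- A fixed denominator. -/
theorem den_fix {x : Loc L} {o : DV L} (hx : A.FixL x) (ho : A.InvO o) {s : L} (h1 : s ∈ x.O)
    (h2 : s ≠ 0) (h3 : o.v s = 0) :
    ∃ t ∈ x.O, s * t ∈ A.fix ∧ s * t ≠ 0 ∧ o.v (s * t) = 0 := by
  let U : Submonoid L :=
    { carrier := {u | u ∈ x.O ∧ u ≠ 0 ∧ o.v u = 0}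
      mul_mem' := fun {a b} ha hb => ⟨mul_mem ha.1 hb.1, mul_ne_zero ha.2.1 hb.2.1, by
        rw [o.mul _ _ ha.2.1 hb.2.1, ha.2.2, hb.2.2, add_zero]⟩
      one_mem' := ⟨one_mem _, one_ne_zero, o.one⟩ }
  obtain ⟨t, ht, e⟩ := A.exists_mul (U := U) (fun σ u hu => ⟨(hx.mem σ).2 hu.1,
    (map_ne_zero _).2 hu.2.1, (ho σ u).trans hu.2.2⟩) (s := s) ⟨h1, h2, h3⟩
  exact ⟨t, ht.1, e, (mul_mem (show s ∈ U from ⟨h1, h2, h3⟩) ht).2⟩

end Gal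

variable {p : ℕ} [Fact p.Prime] [Algebra ℚ_[p] ℂ]

theorem sh_z (C : Co L n) {t : Fin n → ℚ_[p]} {i : Fin n} (h : t i = 0) :
    (sh C (up t)).z i = C.z i := by simp [sh, up, h]

theorem sh_zero (C : Co L n) : sh C (up (0 : Fin n → ℚ_[p])) = C := co_eq fun _ => sh_z C rfl

theorem up_ins (i : Fin (n + 1)) (t : Fin n → ℚ_[p]) (l : Fin n) :
    up (i.insertNth 0 t : Fin (n + 1) → ℚ_[p]) (i.succAbove l) = up t l := by simp [up]

variable {A : GA ℚ_[p] L} {B : GA ℚ_[p] k} {P : Pl L k}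

theorem CBox.On.at {c : CBox A n} {o : DV L} {i : Fin n} (h : c.On o i) : c.C.At o i :=
  sh_zero (p := p) c.C ▸ (h 0 zero_Bl rfl).adp

variable [Algebra.IsAlgebraic ℚ_[p] ℂ]

theorem CBox.On.box (h : A.Cpt B P) {c : CBox A n} {i : Fin n} (H : c.On P.o i) :
    c.b.On (plc h) i := fun t ht h0 => by
  have hd := H t ht h0
  have hz : (c.b.z i : L) ∈ P.o.F 1 := c.z i ▸ Or.inr H.at.vz.ge
  refine ⟨Subtype.ext ((coe_pf h (P.o.F_anti (by omega) hz)).trans (P.π_F1 hz)),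
    fun g hg => hd.le _ ((c.O t ht g).1 hg), fun g hg e => (c.O t ht _).2 ?_, fun g hg => ?_⟩
  · have a := (c.O t ht g).1 hg
    have := hd.div _ a ((P.ker _ (hd.le _ a)).1
      ((coe_pf h (hd.le _ a)).symm.trans (congrArg Subtype.val e)))
    rwa [sh_z _ h0, ← c.z] at this
  · obtain ⟨s, s1, s2, s3, s4⟩ := RFl.loc (c.rg t ht) hd hg
    obtain ⟨u, u1, u2, u3, u4⟩ := den_fix (c.fx t ht) h.1 s1 s2 s3
    refine ⟨⟨_, u2⟩, (c.O t ht _).2 (mul_mem s1 u1), fun e => Pl.π_ne u3 u4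
      ((coe_pf h (g := ⟨_, u2⟩) (Or.inr u4.ge)).symm.trans (congrArg Subtype.val e)),
      (c.O t ht _).2 ?_⟩
    show s * u * g ∈ _
    rw [mul_right_comm]
    exact mul_mem s4 u1

variable (p)

theorem sFACE : SFACE p := by
  intro L k _ _ _ _ n A B P h c i H
  obtain ⟨f, hf, hD⟩ := c.b.exists_face (plc h) i (H.box h)
  obtain ⟨C', hC⟩ := at_rsC H.at
  have key : ∀ t ∈ Bl p n, ∃ x', Pr P (c.Q (i.insertNth 0 t)) x' ∧ Rg (sh C' (up t)) x' := by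
    intro t ht
    obtain ⟨C'', x', h1, h2, h3⟩ := RFl.res (c.rg _ (ins_Bl i ht)) (H _ (ins_Bl i ht) (by simp))
    refine ⟨x', h2, (co_eq fun l => ?_ : C'' = sh C' (up t)) ▸ h3⟩
    rw [h1 l]
    show P.π (_ - _) = _ - _
    rw [Pl.π_sub (H.at.z_F _) (P.cst _).1, (P.cst _).2, hC l, up_ins]
  have : Nonempty (Loc k) := ⟨(key 0 zero_Bl).choose⟩
  choose! Q hQ hR using key
  have hO : ∀ t ∈ Bl p n, ∀ g : B.fix, g ∈ (f.Φ t).O ↔ (g : k) ∈ (Q t).O := fun t ht g => by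
    rw [hf.O t ht]
    constructor
    · rintro ⟨g', hg, rfl⟩
      have a := (c.O _ (ins_Bl i ht) g').1 hg
      exact (coe_pf h ((hQ t ht).1 _ a)).symm ▸ (hQ t ht).mem a
    · intro hg
      obtain ⟨g', a1, a2, a3⟩ := lift_pr h (c.fx _ (ins_Bl i ht)) (hQ t ht) hg g.2
      exact ⟨⟨g', a2⟩, (c.O _ (ins_Bl i ht) _).2 a1,
        Subtype.ext ((coe_pf h (g := ⟨g', a2⟩) ((hQ t ht).1 _ a1)).trans a3)⟩
  refine ⟨⟨f, C', Q, fun l => ?_, fun l g => ?_, fun t ht => fixL_pr h (c.fx _ (ins_Bl i ht))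
    (hQ t ht), hO, fun t ht g => ?_, hR⟩, H, hf, hC, fun t ht => (hQ t ht).2,
    fun t ht g hg => (hQ t ht).ev hg⟩
  · rw [hf.z, hC l, ← c.z]
    exact coe_pf h (c.z _ ▸ H.at.z_F _)
  · obtain ⟨g, hg, rfl⟩ := (plc h).surj g
    rw [hD l g hg]
    refine (coe_pf h ((H.box h).der_mem _ hg)).trans ?_
    rw [c.D, (hC.D H.at l).2 _ hg]
    exact congrArg _ (coe_pf h hg).symm
  · by_cases hg : g ∈ (f.Φ t).O
    · obtain ⟨u, hu, rfl⟩ := (hf.O t ht g).1 hg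
      have a := (c.O _ (ins_Bl i ht) u).1 hu
      rw [hf.ev t ht u hu, c.ev _ (ins_Bl i ht), ← (hQ t ht).ev a]
      exact congrArg _ (coe_pf h ((hQ t ht).1 _ a)).symm
    · rw [Pt.ev_out _ _ hg, map_zero, (Q t).ev_out _ fun e => hg ((hO t ht g).2 e)]

theorem sDOMC : SDOMC p := fun _ _ _ _ _ c c' t ht s hs h =>
  fix_le (c.fx t ht) fun g hg hf => (c'.O s hs ⟨g, hf⟩).1 (h ((c.O t ht ⟨g, hf⟩).2 hg))

end Pool.Agent.MP_5d9b3c_ag.P3D
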