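import Pool.Agent.MP_5d9b3c_ag.P3X.Face
import Pool.Agent.MP_ee8c61_ag.M3BK.RSurfA

/-! Faces and double faces are separated and integral. -/

namespace Pool.Agent.MP_5d9b3c_ag.P3D

open MP_ee8c61_ag M3 M3RESID M3BK P3 P3K P3T Set
open Pool.Agent.MP_96693b_ag.RS (Loc)

variable {p : ℕ} [Fact p.Prime] [Algebra ℚ_[p] ℂ] [Algebra.IsAlgebraic ℚ_[p] ℂ]

section

variable {L k : Type} [Field L] [Algebra ℂ L] [Field k] [Algebra ℂ k] {n : ℕ}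
  {A : GA ℚ_[p] L} {B : GA ℚ_[p] k} {P : Pl L k} {h : A.Cpt B P}

theorem CFace.pr {c : CBox A (n + 1)} {i : Fin (n + 1)} {f : CBox B n} (H : CFace c h i f)
    {t : Fin n → ℚ_[p]} (ht : t ∈ Bl p n) : Pr P (c.Q (i.insertNth 0 t)) (f.Q t) :=
  ⟨(H.on _ (ins_Bl i ht) (by simp)).le, H.O t ht⟩

theorem CFace.itg {c : CBox A (n + 1)} {i : Fin (n + 1)} {f : CBox B n} (H : CFace c h i f)
    {t : Fin n → ℚ_[p]} (ht : t ∈ Bl p n) {g : A.fix}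
    (hg : g ∈ (c.b.Φ (i.insertNth 0 t)).O ∧ ‖(c.b.Φ (i.insertNth 0 t)).ev g‖ ≤ 1) :
    pf h g ∈ (f.b.Φ t).O ∧ ‖(f.b.Φ t).ev (pf h g)‖ ≤ 1 :=
  ⟨(H.fc.O t ht _).2 ⟨g, hg.1, rfl⟩, (congrArg norm (H.fc.ev t ht g hg.1)).trans_le hg.2⟩

omit [Algebra.IsAlgebraic ℚ_[p] ℂ] in
theorem CBox.Φ_eq {c c' : CBox A n} {t s : Fin n → ℚ_[p]} (ht : t ∈ Bl p n) (hs : s ∈ Bl p n)
    (e : c.Q t = c'.Q s) : c.b.Φ t = c'.b.Φ s :=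
  Pt.ext' (SetLike.ext fun g => by rw [c.O t ht, c'.O s hs, e])

omit [Algebra.IsAlgebraic ℚ_[p] ℂ] in
theorem CBox.On.uniq {c : CBox A n} {o : DV L} {i j : Fin n} (hi : c.On o i) (hj : c.On o j) :
    i = j := by
  by_contra hn
  have := hj.at.v i
  rw [hi.at.vz, if_neg hn] at this
  exact one_ne_zero this

end

namespace Fam

variable {f₀ : Po 3} {M : Mod 3} {f : (AK p).fix} {𝓑 : Fam M f} {o : M.J}
  {k κ : Type} [Field k] [Algebra ℂ k] [Field κ] [Algebra ℂ κ] {B : GA ℚ_[p] k} {P : Pl (KK 3) k}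
  {h : (AK p).Cpt B P} {E : GA ℚ_[p] κ} {R : Pl k κ}

theorem mem_pts (𝓑 : Fam M f) (b : 𝓑.ι) {t : Fin 3 → ℚ_[p]} (ht : t ∈ Bl p 3) :
    (𝓑.c b).Q t ∈ M.pts := (𝓑.pt b).imp fun _ h => h t ht

/-- A valuation ring has its centre in one box only. -/
theorem sepV (Bs : M3E.Bas f₀ M) {b b' : 𝓑.ι} {t u : Fin 3 → ℚ_[p]} (ht : t ∈ Bl p 3)
    (hu : u ∈ Bl p 3) {V : Vl 3} (h1 : Dm ((𝓑.c b).Q t) V) (h2 : Le ((𝓑.c b').Q u) V) : b = b' :=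
  𝓑.dis b b' t ht u hu
    (CBox.Φ_eq ht hu (RSurf.sep Bs (𝓑.mem_pts b ht) (𝓑.mem_pts b' hu) h1 h2))

theorem Fc.sepV (s : 𝓑.Fc o h) (Bs : M3E.Bas f₀ M) {x y : 𝓑.F1 o} {t u : Fin 2 → ℚ_[p]}
    (ht : t ∈ Bl p 2) (hu : u ∈ Bl p 2) {V : ValuationSubring k} (h1 : Dm ((s.g x).Q t) V)
    (h2 : Le ((s.g y).Q u) V) : x = y := by
  have e := Fam.sepV Bs (ins_Bl _ ht) (ins_Bl _ hu) (RSurf.dm_lift ((s.fc x).pr ht) h1)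
    (RSurf.le_lift ((s.fc y).pr hu) h2)
  obtain ⟨⟨b, i⟩, hx⟩ := x
  obtain ⟨⟨b', i'⟩, hy⟩ := y
  obtain rfl : b = b' := e
  obtain rfl : i = i' := 𝓑.inj b i i' o hx hy
  rfl

theorem sp0 (𝓑 : Fam M f) (Bs : M3E.Bas f₀ M) : Sp0 fun b => (𝓑.c b).b := fun x y t ht u hu e => by
  obtain ⟨V, hV⟩ := RSurf.exists_dm ((𝓑.c y).Q u)
  exact (Fam.sepV Bs hu ht hV fun g hg => hV.1 g (sDOMC p _ _ _ _ _ t ht u hu e hg)).symm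

theorem Fc.sp1 (s : 𝓑.Fc o h) (Bs : M3E.Bas f₀ M) : Sp0 fun x => (s.g x).b :=
  fun x y t ht u hu e => by
  obtain ⟨V, hV⟩ := RSurf.exists_dm ((s.g y).Q u)
  exact (s.sepV Bs hu ht hV fun g hg => hV.1 g (sDOMC p _ _ _ _ _ t ht u hu e hg)).symm

theorem Fc.itg1 (s : 𝓑.Fc o h) : Itg (fun x => (s.g x).b) (x1 h) := by
  rintro x t ht _ ⟨l, rfl⟩
  exact (s.fc x).itg ht (𝓑.itg _ _ (ins_Bl _ ht) _ ⟨l, rfl⟩)

variable (s : 𝓑.Fc o h) {h2 : B.Cpt E R} {c : s.F2 R.o → CBox E 1}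
  (hc : ∀ x, CFace (s.g x.1.1) h2 x.1.2 (c x))

include hc

theorem Fc.sepV2 (Bs : M3E.Bas f₀ M) {x y : s.F2 R.o} {t u : Fin 1 → ℚ_[p]}
    (ht : t ∈ Bl p 1) (hu : u ∈ Bl p 1) {V : ValuationSubring κ} (h1 : Dm ((c x).Q t) V)
    (h3 : Le ((c y).Q u) V) : x = y := by
  have e := s.sepV Bs (ins_Bl _ ht) (ins_Bl _ hu) (RSurf.dm_lift ((hc x).pr ht) h1)
    (RSurf.le_lift ((hc y).pr hu) h3)
  obtain ⟨⟨b, i⟩, hx⟩ := x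
  obtain ⟨⟨b', i'⟩, hy⟩ := y
  obtain rfl : b = b' := e
  obtain rfl : i = i' := hx.2.uniq hy.2
  rfl

theorem Fc.sp2 (Bs : M3E.Bas f₀ M) : Sp0 fun x => (c x).b := fun x y t ht u hu e => by
  obtain ⟨V, hV⟩ := RSurf.exists_dm ((c y).Q u)
  exact (s.sepV2 hc Bs hu ht hV fun g hg => hV.1 g (sDOMC p _ _ _ _ _ t ht u hu e hg)).symm

theorem Fc.itg2 : Itg (fun x => (c x).b) (x2 h h2) := by
  rintro x t ht _ ⟨l, rfl⟩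
  exact (hc x).itg ht (s.itg1 _ _ (ins_Bl _ ht) _ ⟨l, rfl⟩)

end Fam

end Pool.Agent.MP_5d9b3c_ag.P3D
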