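import Pool.Agent.MP_5d9b3c_ag.P3X.Face
import Pool.Agent.MP_5d9b3c_ag.P3D.Flag

/-! Divisors and double curves on small boxes. -/

namespace Pool.Agent.MP_5d9b3c_ag.P3D

open MP_ee8c61_ag M3 M3RESID M3BK P3 P3K P3T Set Filter Topology
open Pool.Agent.MP_96693b_ag.RS (Loc LocOf)
open Pool.Agent.MP_96693b_ag

variable {L k : Type} [Field L] [Algebra ℂ L] [Field k] [Algebra ℂ k] {n : ℕ}

theorem un_sub {C : Co L n} {o : DV L} {i j : Fin n} (h : C.At o i) (hj : j ≠ i) (a : ℂ) :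
    Un o.O (C.z j - algebraMap ℂ L a) := by
  by_contra e
  have := h.D_LV hj 1 _ (RSurf.F1_of (sub_mem (h.z_F j) (h.cst a)) e)
  rw [map_sub, Derivation.map_algebraMap, C.dual, if_pos rfl, sub_zero] at this
  have := this.resolve_left one_ne_zero
  rw [o.one] at this
  omega

/-- `a` lies in the ideal of `O` generated by `x` and `y`. -/
def In2 (O : Subalgebra ℂ L) (x y a : L) : Prop := ∃ u ∈ O, ∃ v ∈ O, a = u * x + v * y

theorem In2.ev {Q : Loc L} {x y a : L} (h : In2 Q.O x y a) (hx : x ∈ Q.O) (hy : y ∈ Q.O)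
    (x0 : Q.ev x = 0) (y0 : Q.ev y = 0) : Q.ev a = 0 := by
  obtain ⟨u, hu, v, hv, rfl⟩ := h
  rw [Q.ev_add _ (mul_mem hu hx) _ (mul_mem hv hy), Q.ev_mul _ hu _ hx, Q.ev_mul _ hv _ hy, x0, y0,
    mul_zero, mul_zero, add_zero]

/-- The trace of the ideal on a subring. -/
def id2 (A₀ O : Subalgebra ℂ L) (h : A₀ ≤ O) (x y : L) : Ideal A₀ where
  carrier := {a | In2 O x y a}
  add_mem' := fun ⟨u, hu, v, hv, e⟩ ⟨u', hu', v', hv', e'⟩ =>
    ⟨_, add_mem hu hu', _, add_mem hv hv', by rw [Subalgebra.coe_add, e, e']; ring⟩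
  zero_mem' := ⟨0, zero_mem _, 0, zero_mem _, by simp⟩
  smul_mem' := fun a _ ⟨u, hu, v, hv, e⟩ => ⟨_, mul_mem (h a.2) hu, _, mul_mem (h a.2) hv, by
    rw [smul_eq_mul, Subalgebra.coe_mul, e]; ring⟩

variable {p : ℕ} [Fact p.Prime] [Algebra ℚ_[p] ℂ] {A : GA ℚ_[p] L} {A₀ : Subalgebra ℂ L}

/-- The curve `z i = z i' = 0` of the box is the curve through the centre. -/
def Crv0 (c : CBox A n) (A₀ : Subalgebra ℂ L) (i i' : Fin n) : Prop :=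
  ∀ t ∈ Bl p n, t i = 0 → t i' = 0 → ∀ a ∈ A₀, In2 (c.Q 0).O (c.C.z i) (c.C.z i') a →
    (c.Q t).ev a = 0

theorem CBox.sh_fix (c : CBox A n) (t : Fin n → ℚ_[p]) (i : Fin n) :
    (sh c.C (up t)).z i ∈ A.fix := sub_mem (c.z i ▸ (c.b.z i).2) (A.alg_fix _)

/-- The divisor of a coordinate at a point of the box is invariant. -/
theorem CBox.invO (c : CBox A n) {t : Fin n → ℚ_[p]} (ht : t ∈ Bl p n) {G : DV L} {i : Fin n}
    (h : (sh c.C (up t)).Dat (c.Q t).O G i) : A.InvO G := GA.invO_iff.2 fun σ => by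
  have := (A.si σ).dat h
  rw [GA.co_fix (c.sh_fix t), ← SI.loc_O, c.fx t ht] at this
  exact RFl.dat_uniq (c.rg t ht) this h

variable [Algebra.IsAlgebraic ℚ_[p] ℂ]

theorem crv_of {c : CBox A 3} (hA : ∀ t ∈ Bl p 3, LocOf A₀ (c.Q t)) {i : Fin 3} {m : Fin 2}
    (H : Crv0 c A₀ i (i.succAbove m)) {B : GA ℚ_[p] k} {P : Pl L k} {h : A.Cpt B P} {g : CBox B 2}
    (hf : CFace c h i g) : ∃ G, B.InvO G ∧ g.On G m := by
  obtain ⟨G, hG⟩ := RFl.ex_dat (g.rg 0 zero_Bl) m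
  refine ⟨G, g.invO zero_Bl hG, fun t ht h0 => RSurf.dat_of_le (g.rg t ht) (fun y hy => ?_)
    (fun e => e.2 _ ((g.rg t ht).st.z m.rev) ((g.rg t ht).ev _) ?_) ?_⟩
  · have e0 : (i.insertNth 0 0 : Fin 3 → ℚ_[p]) = 0 := by simp
    have p0 : Pr P (c.Q 0) (g.Q 0) := e0 ▸ FLG.pr hf zero_Bl
    have d0 := hf.on 0 zero_Bl rfl
    have z0 := (c.rg 0 zero_Bl).st.z
    rw [sh_zero] at hG d0 z0
    have pt := FLG.pr hf ht
    obtain ⟨u, hu, rfl⟩ := (pt.2 y).1 hy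
    obtain ⟨a, ha, q, hq, q0, e⟩ := (hA _ (ins_Bl i ht)).frac u hu
    have hq' := (hA 0 zero_Bl).le hq
    have : Un G.O (P.π q) := by
      by_contra hn
      obtain ⟨v, hv, e1⟩ := (p0.2 _).1
        (hG.div _ (p0.mem hq') (RSurf.F1_of (hG.le _ (p0.mem hq')) hn))
      have h1 := sub_mem hq' (mul_mem hv (z0 (i.succAbove m)))
      refine q0 (H _ (ins_Bl i ht) (by simp) (by simpa using h0) q hq
        ⟨_, d0.div _ h1 ((P.ker _ (d0.le _ h1)).1 ?_), v, hv, ?_⟩)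
      · rw [Pl.π_sub (d0.le _ hq') (d0.le _ (mul_mem hv (z0 _))),
          P.mul _ (d0.le _ hv) _ (d0.le _ (z0 _)), e1, ← hf.rc m, div_mul_cancel₀ _ (g.C.ne m),
          sub_self]
      · rw [div_mul_cancel₀ _ (c.C.ne i), sub_add_cancel]
    refine this.mem_iff.1 ?_
    rw [← P.mul _ (pt.1 _ hu) _ (d0.le _ hq'), e]
    exact hG.le _ (p0.mem ((hA 0 zero_Bl).le ha))
  · rw [sh_zero] at hG
    exact un_sub hG.adp (RFl.rev_ne m) _
  · rw [sh_zero] at hG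
    rw [sh_z _ h0, hG.adp.vz]

namespace CBox

variable (c : CBox A n) {t₀ : Fin n → ℚ_[p]}

theorem near (ht : t₀ ∈ Bl p n) {g : L} (hg : g ∈ (c.Q t₀).O) : ∀ᶠ t in 𝓝 t₀, g ∈ (c.Q t).O := by
  let O : Subalgebra ℂ L :=
    { carrier := {g | ∀ᶠ t in 𝓝 t₀, g ∈ (c.Q t).O}
      mul_mem' := fun ha hb => (Eventually.and ha hb).mono fun _ e => mul_mem e.1 e.2
      add_mem' := fun ha hb => (Eventually.and ha hb).mono fun _ e => add_mem e.1 e.2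
      algebraMap_mem' := fun a => Eventually.of_forall fun t => (c.Q t).O.algebraMap_mem a }
  refine fix_le (O := O) (c.fx _ ht) (fun g hg hf => ?_) hg
  filter_upwards [Bl_nhds ht, (c.b.cont _ ht).tendsto
    (Pt.ev_mem ((c.O _ ht ⟨g, hf⟩).2 hg))] with t h1 h2
  exact (c.O t h1 ⟨g, hf⟩).1 h2

theorem near_ne (ht : t₀ ∈ Bl p n) {g : L} (hg : (c.Q t₀).ev g ≠ 0) :
    ∀ᶠ t in 𝓝 t₀, (c.Q t).ev g ≠ 0 := by
  filter_upwards [c.near ht (RS.Loc.mem_of_ev hg),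
    c.near ht ((c.Q t₀).inv_mem _ (RS.Loc.mem_of_ev hg) hg)] with t h1 h2
  have := (c.Q t).ev_mul _ h1 _ h2
  rw [mul_inv_cancel₀ (RS.Loc.ne_zero_of_ev hg), RS.Loc.ev_one] at this
  exact left_ne_zero_of_mul_eq_one this.symm

theorem near_le (ht : t₀ ∈ Bl p n) (hA : A₀.FG) (h : A₀ ≤ (c.Q t₀).O) :
    ∀ᶠ t in 𝓝 t₀, A₀ ≤ (c.Q t).O := by
  obtain ⟨s, rfl⟩ := hA
  exact ((eventually_all_finset s).2 fun g hg => c.near ht (h (Algebra.subset_adjoin hg))).mono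
    fun _ e => Algebra.adjoin_le e

theorem near_in2 (ht : t₀ ∈ Bl p n) (hA : A₀.FG) (h : A₀ ≤ (c.Q t₀).O) (x y : L) :
    ∀ᶠ t in 𝓝 t₀, ∀ a ∈ A₀, In2 (c.Q t₀).O x y a → In2 (c.Q t).O x y a := by
  have := isNoetherianRing_of_fg hA
  obtain ⟨s, hs⟩ := IsNoetherian.noetherian (id2 A₀ _ h x y)
  have h1 : ∀ a ∈ s, ∀ᶠ t in 𝓝 t₀, In2 (c.Q t).O x y a := fun a ha => by
    obtain ⟨u, hu, v, hv, e⟩ : a ∈ id2 A₀ _ h x y := hs ▸ Submodule.subset_span ha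
    filter_upwards [c.near ht hu, c.near ht hv] with t h1 h2 using ⟨u, h1, v, h2, e⟩
  filter_upwards [(eventually_all_finset s).2 h1, c.near_le ht hA h] with t h2 h3 a ha e
  exact (Submodule.span_le.2 h2 : _ ≤ id2 A₀ _ h3 x y) (hs.ge (show ⟨a, ha⟩ ∈ id2 A₀ _ h x y from e))

theorem sh_eq {t : Fin n → ℚ_[p]} {i : Fin n} (h : t i = t₀ i) :
    (sh c.C (up t)).z i = (sh c.C (up t₀)).z i := by simp [sh, up, h]

/-- The curve through a point is the only one near the point. -/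
theorem crv_near (ht : t₀ ∈ Bl p n) (hA : A₀.FG) (h : A₀ ≤ (c.Q t₀).O) (i i' : Fin n) :
    ∀ᶠ t in 𝓝 t₀, t i = t₀ i → t i' = t₀ i' → ∀ a ∈ A₀,
      In2 (c.Q t₀).O ((sh c.C (up t₀)).z i) ((sh c.C (up t₀)).z i') a → (c.Q t).ev a = 0 := by
  filter_upwards [c.near_in2 ht hA h ((sh c.C (up t₀)).z i) ((sh c.C (up t₀)).z i'), Bl_nhds ht]
    with t h1 h2 e1 e2 a ha e
  have := h1 a ha e
  rw [← c.sh_eq e1, ← c.sh_eq e2] at this
  exact this.ev ((c.rg t h2).st.z _) ((c.rg t h2).st.z _) ((c.rg t h2).ev _) ((c.rg t h2).ev _)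

/-- The divisor through a point is the only one near the point. -/
theorem on_near (ht : t₀ ∈ Bl p n) (hA : A₀.FG) (h : ∀ t ∈ Bl p n, LocOf A₀ (c.Q t)) {o : DV L}
    {i : Fin n} (hd : (sh c.C (up t₀)).Dat (c.Q t₀).O o i) :
    ∀ᶠ t in 𝓝 t₀, t i = t₀ i → (sh c.C (up t)).Dat (c.Q t).O o i := by
  filter_upwards [c.near_in2 ht hA (h _ ht).le ((sh c.C (up t₀)).z i) 0, Bl_nhds ht]
    with t h1 h2 e1
  have hr := c.rg t h2
  have k0 := fun a ha => hd.le a ((h _ ht).le ha)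
  have k1 : ∀ a ∈ A₀, a ∈ o.F 1 → a / (sh c.C (up t)).z i ∈ (c.Q t).O := fun a ha h3 => by
    obtain ⟨u, hu, v, -, e⟩ := h1 a ha ⟨_, hd.div a ((h _ ht).le ha) h3, 0, zero_mem _, by
      rw [div_mul_cancel₀ _ (Co.ne _ i), mul_zero, add_zero]⟩
    rwa [e, mul_zero, add_zero, c.sh_eq e1, mul_div_cancel_right₀ _ (Co.ne _ i)]
  have k2 : ∀ q ∈ A₀, (c.Q t).ev q ≠ 0 → Un o.O q := fun q hq q0 => by
    by_contra e
    have := (c.Q t).ev_mul _ (k1 q hq (RSurf.F1_of (k0 q hq) e)) _ (hr.st.z i)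
    rw [div_mul_cancel₀ _ (Co.ne _ i), hr.ev, mul_zero] at this
    exact q0 this
  refine Co.dat_of hr.st (c.sh_eq e1 ▸ hd.adp.vz) hr.fr (fun g hg => ?_) fun g hg g1 => ?_
  · obtain ⟨a, ha, q, hq, q0, e⟩ := (h t h2).frac g hg
    exact (k2 q hq q0).mem_iff.1 (e ▸ k0 a ha)
  · obtain ⟨a, ha, q, hq, q0, e⟩ := (h t h2).frac g hg
    have := mul_mem (k1 a ha (e ▸ F_mul0' g1 (k0 q hq))) ((c.Q t).inv_mem q ((h t h2).le hq) q0)
    rwa [← e, mul_div_right_comm, mul_inv_cancel_right₀ (RS.Loc.ne_zero_of_ev q0)] at this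

end CBox

end Pool.Agent.MP_5d9b3c_ag.P3D
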