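import Pool.Agent.MP_5d9b3c_ag.P3X.FamD
import Pool.Agent.MP_5d9b3c_ag.P3X.Face
import Pool.Agent.MP_5d9b3c_ag.P3K.Sub

/-! Small balls in a box of fixed points. -/

namespace Pool.Agent.MP_5d9b3c_ag.P3D

open MP_ee8c61_ag M3 M3RESID M3BK P3 P3K P3T Set
open Pool.Agent.MP_96693b_ag.RS (Loc)

noncomputable section

variable {L : Type} [Field L] [Algebra ℂ L] {n : ℕ}

/-- The scaled coordinates. -/
def scl (C : Co L n) {u : ℂ} (hu : u ≠ 0) : Co L n where
  z i := C.z i / algebraMap ℂ L u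
  D i := u • C.D i
  ne i := div_ne_zero (C.ne i) ((map_ne_zero _).2 hu)
  dual i j := by
    rw [div_eq_inv_mul, ← map_inv₀, ← Algebra.smul_def, Derivation.smul_apply,
      Derivation.map_smul, smul_smul, mul_inv_cancel₀ hu, one_smul, C.dual]
  span v h := C.span v fun i => by
    have := h i
    rwa [div_eq_inv_mul, ← map_inv₀, ← Algebra.smul_def, Derivation.map_smul,
      smul_eq_zero_iff_right (inv_ne_zero hu)] at this

theorem scl_z (C : Co L n) {u : ℂ} (hu : u ≠ 0) (i : Fin n) :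
    (scl C hu).z i = C.z i * algebraMap ℂ L u⁻¹ := by rw [map_inv₀, ← div_eq_mul_inv]; rfl

theorem rg_scl {C : Co L n} {x : Loc L} (h : Rg C x) {u : ℂ} (hu : u ≠ 0) : Rg (scl C hu) x := by
  refine ⟨⟨fun i => scl_z C hu i ▸ mul_mem (h.st.z i) (x.O.algebraMap_mem _),
    fun i g hg => x.O.smul_mem (h.st.D i g hg) u⟩, fun i => ?_, fun g hg h0 => ?_, h.fr⟩
  · rw [scl_z, x.ev_mul _ (h.st.z i) _ (x.O.algebraMap_mem _), h.ev, zero_mul]
  · obtain ⟨a, a1, rfl⟩ := h.mx g hg h0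
    exact ⟨fun i => algebraMap ℂ L u * a i, fun i => mul_mem (x.O.algebraMap_mem _) (a1 i),
      Finset.sum_congr rfl fun i _ => by
        rw [scl_z, mul_assoc, map_inv₀, inv_mul_cancel_left₀ ((map_ne_zero _).2 hu)]⟩

theorem dat_scl {C : Co L n} {O : Subalgebra ℂ L} {o : DV L} {i : Fin n} (h : C.Dat O o i) {u : ℂ}
    (hu : u ≠ 0) : (scl C hu).Dat O o i := by
  refine ⟨⟨h.adp.cst, fun j => ?_, fun j g hg => (P3G.FS o 0).smul_mem u (h.adp.D j g hg)⟩, h.le,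
    fun g hg h1 => ?_⟩
  · rw [scl_z, o.mul _ _ (C.ne j) ((map_ne_zero _).2 (inv_ne_zero hu)), o.cst, add_zero, h.adp.v]
  · rw [scl_z, ← div_div, div_eq_mul_inv, ← map_inv₀]
    exact mul_mem (h.div g hg h1) (O.algebraMap_mem _)

variable {p : ℕ} [Fact p.Prime]

theorem pce_ne (e : ℕ) : (p : ℂ) ^ e ≠ 0 :=
  pow_ne_zero e (Nat.cast_ne_zero.2 (Fact.out : p.Prime).ne_zero)

variable [Algebra ℚ_[p] ℂ] {A : GA ℚ_[p] L} {a : Fin n → ℚ_[p]} {e : ℕ}

theorem sh_scl (C : Co L n) (a t : Fin n → ℚ_[p]) (e : ℕ) :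
    sh (scl (sh C (up a)) (pce_ne (p := p) e)) (up t) =
      scl (sh C (up (a + (p : ℚ_[p]) ^ e • t))) (pce_ne (p := p) e) := co_eq fun i => by
  have : algebraMap ℂ L ((p : ℂ) ^ e) ≠ 0 := (map_ne_zero _).2 (pce_ne e)
  simp only [sh, scl, up, Pi.add_apply, Pi.smul_apply, smul_eq_mul, map_add, map_mul, map_pow,
    map_natCast] at this ⊢
  field_simp
  ring

variable [Algebra.IsAlgebraic ℚ_[p] ℂ]

theorem CBox.sub_z (c : CBox A n) {b' : Box p A.fix n} (h : c.b.IsSub a e b') (i : Fin n) :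
    (b'.z i : L) = (scl (sh c.C (up a)) (pce_ne (p := p) e)).z i := by
  rw [h.z, Subfield.coe_div, Subfield.coe_sub, c.z, coe_alg]
  simp [sh, scl, up]

/-- The box of fixed points on a small ball. -/
def CBox.sub (c : CBox A n) {b' : Box p A.fix n} (h : c.b.IsSub a e b') : CBox A n where
  b := b'
  C := scl (sh c.C (up a)) (pce_ne (p := p) e)
  Q t := c.Q (a + (p : ℚ_[p]) ^ e • t)
  z := c.sub_z h
  D i g := by
    rw [h.D, Derivation.smul_apply, smul_eq_mul, Subfield.coe_mul, c.D]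
    simp [sh, scl, Algebra.smul_def]
  fx _ ht := c.fx _ (aff_bl h.mem ht)
  O t ht g := h.Φ t ht ▸ c.O _ (aff_bl h.mem ht) g
  ev t ht g := h.Φ t ht ▸ c.ev _ (aff_bl h.mem ht) g
  rg t ht := sh_scl c.C a t e ▸ rg_scl (c.rg _ (aff_bl h.mem ht)) _

theorem CBox.sub_isSub (c : CBox A n) {b' : Box p A.fix n} (h : c.b.IsSub a e b') :
    c.IsSub a e (c.sub h) := ⟨h, fun _ _ => rfl⟩

theorem CBox.exists_sub (c : CBox A n) (ha : a ∈ Bl p n) (e : ℕ) : ∃ c', c.IsSub a e c' :=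
  ⟨_, c.sub_isSub (c.b.sub_isSub ha e)⟩

variable {c c' : CBox A n}

theorem CBox.IsSub.C (h : c.IsSub a e c') : c'.C = scl (sh c.C (up a)) (pce_ne (p := p) e) :=
  co_eq fun i => (c'.z i).symm.trans (c.sub_z h.sub i)

theorem CBox.IsSub.zero (h : c.IsSub a e c') : c'.Q 0 = c.Q a := by
  rw [h.Q 0 zero_bl, smul_zero, add_zero]

theorem CBox.IsSub.on (h : c.IsSub a e c') {o : DV L} {i : Fin n} (hi : a i = 0) (H : c.On o i) :
    c'.On o i := fun t ht h0 => by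
  rw [h.C, sh_scl, h.Q t ht]
  exact dat_scl (H _ (aff_bl h.sub.mem ht) (by simp [hi, h0])) _

theorem CBox.Ev.and {E E' : CBox A n → Prop} (h : c.Ev E) (h' : c.Ev E') :
    c.Ev fun c => E c ∧ E' c := by
  obtain ⟨e, h⟩ := h
  obtain ⟨e', h'⟩ := h'
  exact ⟨max e e', fun a ha b' k => ⟨h a (le_of_max_le_left ha) b' k,
    h' a (le_of_max_le_right ha) b' k⟩⟩

theorem CBox.Ev.mono {E E' : CBox A n → Prop} (h : c.Ev E)
    (h' : ∀ e c', c.IsSub 0 e c' → E c' → E' c') : c.Ev E' :=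
  h.imp fun _ k e he c' hc => h' e c' hc (k e he c' hc)

theorem CBox.Ev.all {ι : Type} [Finite ι] {E : ι → CBox A n → Prop} (h : ∀ i, c.Ev (E i)) :
    c.Ev fun c => ∀ i, E i c := by
  choose e he using h
  obtain ⟨a, ha⟩ := Finite.bddAbove_range e
  exact ⟨a, fun a' k b' hb i => he i a' ((ha (mem_range_self i)).trans k) b' hb⟩

theorem CBox.Ev.ex {E : CBox A n → Prop} (h : c.Ev E) : ∃ e c', c.IsSub 0 e c' ∧ E c' :=
  let ⟨e, he⟩ := h
  let ⟨c', hc⟩ := c.exists_sub zero_bl e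
  ⟨e, c', hc, he e le_rfl c' hc⟩

theorem CBox.ev_box {E : Box p A.fix n → Prop} (h : c.b.Ev 0 E) : c.Ev fun c' => E c'.b :=
  h.imp fun _ k e he _ hc => k e he _ hc.sub

/-- A property of parameters that holds near the centre holds on small balls. -/
theorem CBox.ev_near {q : (Fin n → ℚ_[p]) → Loc L → Prop}
    (h : ∀ᶠ s in nhds 0, q s (c.Q s)) :
    ∃ e₀, ∀ e, e₀ ≤ e → ∀ c', c.IsSub 0 e c' → ∀ t ∈ Bl p n,
      q (0 + (p : ℚ_[p]) ^ e • t) (c'.Q t) :=
  (Box.ev_of_nhds h).imp fun _ k e he _ hc t ht => hc.Q t ht ▸ k e he t ht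

open Classical in
/-- The labels of a small ball. -/
def cut {J : Type} (a : Fin n → ℚ_[p]) (lab : Fin n → Option J) (i : Fin n) : Option J :=
  if a i = 0 then lab i else none

omit [Algebra ℚ_[p] ℂ] [Algebra.IsAlgebraic ℚ_[p] ℂ] in
theorem cut_zero {J : Type} (lab : Fin n → Option J) : cut (0 : Fin n → ℚ_[p]) lab = lab :=
  funext fun _ => if_pos rfl

omit [Algebra ℚ_[p] ℂ] [Algebra.IsAlgebraic ℚ_[p] ℂ] in
theorem cut_some {J : Type} {lab : Fin n → Option J} {i : Fin n} {j : J} :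
    cut a lab i = some j ↔ a i = 0 ∧ lab i = some j := by
  by_cases h : a i = 0 <;> simp [cut, h]

omit [Algebra ℚ_[p] ℂ] [Algebra.IsAlgebraic ℚ_[p] ℂ] in
theorem aff_zero (hn : Nm a e) {t : Fin n → ℚ_[p]} (ht : t ∈ Bl p n) (i : Fin n) :
    (a + (p : ℚ_[p]) ^ e • t) i = 0 ↔ a i = 0 ∧ t i = 0 := by
  rcases hn i with h | h
  · simp [h, (Fact.out : p.Prime).ne_zero]
  refine iff_of_false (fun k => ?_) fun k => ?_
  · have := (dist_le_pi_dist _ a i).trans (aff_mem (c := a) (e := e) ht)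
    rw [k, dist_zero_left, H72.rr_pow_eq] at this
    exact absurd h (not_lt.2 this)
  · rw [k.1, norm_zero] at h
    exact absurd h (not_lt.2 (zpow_pos p_pos _).le)

variable {M : Mod 3} {f : (AK p).fix} {d d' : CBox (AK p) 3} {lab : Fin 3 → Option M.J}
  {s : Fin 3 → ℚ_[p]}

/-- Small balls in an adapted box are adapted. -/
theorem Ad.sub (H : Ad M f d lab) (h : d.IsSub s e d') (hn : Nm s e) : Ad M f d' (cut s lab) := by
  classical
  have k : ∀ w : M.J → ℤ, (fun l => if s l = 0 then (lab l).elim 0 w else 0) =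
      fun l => (cut s lab l).elim 0 w := fun w => funext fun l => by
    by_cases q : s l = 0 <;> simp [cut, q]
  refine ⟨fun i i' j q q' => H.inj i i' j (cut_some.1 q).2 (cut_some.1 q').2,
    H.pt.imp fun _ q t ht => h.Q t ht ▸ q _ (aff_bl h.sub.mem ht),
    fun i j q => H.inv i j (cut_some.1 q).2,
    fun i j q => h.on (cut_some.1 q).1 (H.dat i j (cut_some.1 q).2), fun t ht j => ?_, ?_, ?_⟩
  · rw [h.Q t ht, H.on _ (aff_bl h.sub.mem ht)]
    exact exists_congr fun i => by rw [aff_zero hn ht, cut_some, and_left_comm, and_assoc]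
  · obtain ⟨α, q⟩ := H.mf
    exact ⟨_, (h.sub.mono hn q).congr rfl (k _)⟩
  · obtain ⟨α, q⟩ := H.mj
    have := ((d'.b.un_p.mono.pow e).pow 3).mul (h.sub.mono hn q)
    rw [← h.sub.jac] at this
    exact ⟨_, this.congr rfl (by rw [smul_zero, smul_zero, zero_add]; exact k _)⟩

theorem Ad.sub0 (H : Ad M f d lab) (h : d.IsSub 0 e d') : Ad M f d' lab :=
  cut_zero (p := p) lab ▸ H.sub h fun _ => Or.inl rfl

theorem Ig.sub (H : Ig d) (h : d.IsSub s e d') : Ig d' := fun t ht =>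
  h.sub.Φ t ht ▸ H _ (aff_bl h.sub.mem ht)

end

end Pool.Agent.MP_5d9b3c_ag.P3D
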