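import Pool.Agent.MP_5d9b3c_ag.P3X.Lift
import Pool.Agent.MP_5d9b3c_ag.P3X.SubC
import Pool.Agent.MP_5d9b3c_ag.P3D.Igu
import Pool.Agent.MP_5d9b3c_ag.P3K.Asm

/-! The box at a fixed regular point. -/

namespace Pool.Agent.MP_5d9b3c_ag.P3D

open MP_ee8c61_ag M3 M3RESID M3BK P3 P3K P3T Set
open Pool.Agent.MP_96693b_ag.RS (Loc)
open Pool.Agent.MP_96693b_ag

variable {L : Type} [Field L] [Algebra ℂ L] {n p : ℕ} [Fact p.Prime] [Algebra ℚ_[p] ℂ]
  [Algebra.IsAlgebraic ℚ_[p] ℂ] {A : GA ℚ_[p] L} {B : Subalgebra ℂ L} {Q Q' : Loc L}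
  {x : Pt p A.fix}

theorem exists_pt (hQ : A.FixL Q) (fr : ∀ g : L, ∃ s ∈ Q.O, s ≠ 0 ∧ s * g ∈ Q.O) :
    ∃ x : Pt p A.fix, Ovr x Q := by
  choose v hv using fun g : A.fix => hQ.ev_fix g.2
  have inj := (algebraMap ℚ_[p] ℂ).injective
  refine ⟨⟨fxA A Q.O, v, fun f hf g hg => inj ?_, fun f hf g hg => inj ?_, fun r => inj ?_,
    fun f hf => inj ?_, fun f hf h => Q.inv_mem f hf fun e => h (inj ?_), fun g => ?_⟩,
    hQ, fun _ => Iff.rfl, hv⟩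
  · rw [map_add, hv, hv, hv, Subfield.coe_add, Q.ev_add _ hf _ hg]
  · rw [map_mul, hv, hv, hv, Subfield.coe_mul, Q.ev_mul _ hf _ hg]
  · rw [hv, coe_alg, Q.ev_alg]
  · rw [hv, map_zero, Q.ev_out _ hf]
  · rw [hv, map_zero, e]
  · obtain ⟨s, h1, h2, h3⟩ := fr g
    obtain ⟨a, a1, b, b1, a2, b2, b0, e⟩ := A.frac (fun σ g hg => (hQ.mem σ).2 hg) h3 h1 h2
      (by rw [mul_div_cancel_left₀ _ h2]; exact g.2)
    rw [mul_div_cancel_left₀ _ h2] at e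
    refine ⟨⟨b, b2⟩, b1, fun e => b0 (congrArg Subtype.val e), ?_⟩
    show b * g ∈ Q.O
    rwa [e, mul_div_cancel₀ _ b0]

theorem Ovr.uniq (h : Ovr x Q) (h' : Ovr x Q') : Q = Q' :=
  RS.Loc.ext' (le_antisymm (fix_le h.fx fun g hg hf => (h'.O ⟨g, hf⟩).1 ((h.O ⟨g, hf⟩).2 hg))
    (fix_le h'.fx fun g hg hf => (h.O ⟨g, hf⟩).1 ((h'.O ⟨g, hf⟩).2 hg)))

theorem Ovr.locOf (h : Ovr x Q) (hB : A.Stb B) (hQ : RS.LocOf B Q) : LocOf (fxA A B) x := by
  refine ⟨fun g hg => (h.O g).2 (hQ.le hg), fun g hg => ?_⟩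
  obtain ⟨a, ha, q, hq, q0, e⟩ := hQ.frac g ((h.O g).1 hg)
  let U : Submonoid L :=
    { carrier := {u | u ∈ B ∧ Q.ev u ≠ 0}
      mul_mem' := fun {a b} ha hb => ⟨mul_mem ha.1 hb.1, by
        rw [Q.ev_mul _ (hQ.le ha.1) _ (hQ.le hb.1)]
        exact mul_ne_zero ha.2 hb.2⟩
      one_mem' := ⟨one_mem _, RS.Loc.ev_one.trans_ne one_ne_zero⟩ }
  obtain ⟨t, ht, e'⟩ := A.exists_mul (U := U) (fun σ u hu => ⟨hB σ u hu.1, by
    rw [h.fx.ev, map_ne_zero]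
    exact hu.2⟩) (s := q) ⟨hq, q0⟩
  have h4 := mul_mem (show q ∈ U from ⟨hq, q0⟩) ht
  refine ⟨⟨_, e'⟩, h4.1, fun e0 => h4.2 ?_, ?_⟩
  · rw [← h.ev ⟨_, e'⟩, e0, map_zero]
  · show q * t * g ∈ B
    rw [mul_right_comm, mul_comm q, e]
    exact mul_mem ha ht.1

theorem fxA_fg (hB : A.Stb B) (hf : B.FG) : (fxA A B).FG := by
  obtain ⟨t, h1, rfl⟩ := A.alg_gen hB hf
  let t' := t.preimage (fun g : A.fix => (g : L)) Subtype.val_injective.injOn
  let S := Algebra.adjoin ℚ_[p] (t' : Set A.fix)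
  let W : Subring L := S.toSubring.map A.fix.subtype
  refine ⟨t', le_antisymm (Algebra.adjoin_le fun g hg =>
    Algebra.subset_adjoin (Finset.mem_preimage.1 hg)) fun g hg => ?_⟩
  have h2 : ∀ y ∈ Algebra.adjoin ℂ (t : Set L), y ∈ Submodule.span ℂ (W : Set L) := fun y hy => by
    induction hy using Algebra.adjoin_induction with
    | mem y hy =>
      exact Submodule.subset_span ⟨⟨y, h1 y hy⟩,
        Algebra.subset_adjoin (Finset.mem_preimage.2 hy), rfl⟩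
    | algebraMap c =>
      exact Algebra.algebraMap_eq_smul_one (A := L) c ▸
        Submodule.smul_mem _ c (Submodule.subset_span W.one_mem)
    | add a b _ _ ha hb => exact add_mem ha hb
    | mul a b _ _ ha hb =>
      have := Submodule.mul_mem_mul ha hb
      rw [Submodule.span_mul_span] at this
      exact Submodule.span_mono (mul_subset_iff.2 fun a ha b hb => W.mul_mem ha hb) this
  obtain ⟨u, hu, e⟩ := A.sa.fx_span (s := W) (fun _ ⟨u, _, e⟩ => e ▸ u.2) W.toAddSubgroup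
    (fun a _ ⟨u, a1, a3⟩ => ⟨a • u, S.smul_mem a1 a, by
      rw [← a3, Algebra.smul_def, Algebra.smul_def]; rfl⟩) (h2 g hg) g.2
  exact (Subtype.ext e : u = g) ▸ hu

theorem Ovr.mx (h : Ovr x Q) {C : Co L n} (hC : Rg C Q) (hz : ∀ i, C.z i ∈ A.fix) :
    Mx x (fun i => ⟨C.z i, hz i⟩) 0 := fun g hg g0 => by
  obtain ⟨u, a1, a2⟩ := hC.mx g ((h.O g).1 hg) (by rw [← h.ev, g0, map_zero])
  let W : Submodule ℂ (Fin n → L) :=
    { carrier := {v | (∀ i, v i ∈ Q.O) ∧ ∑ i, C.z i * v i = 0}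
      add_mem' := fun ha hb => ⟨fun i => add_mem (ha.1 i) (hb.1 i), by
        simp only [Pi.add_apply, mul_add, Finset.sum_add_distrib, ha.2, hb.2, add_zero]⟩
      zero_mem' := ⟨fun _ => zero_mem _, by simp⟩
      smul_mem' := fun c _ ha => ⟨fun i => Q.O.smul_mem (ha.1 i) c, by
        simp only [Pi.smul_apply, mul_smul_comm, ← Finset.smul_sum, ha.2, smul_zero]⟩ }
  obtain ⟨v, b1, b2, b3⟩ := (A.sa.pi (Fin n)).affine W (x := u) fun σ =>
    ⟨fun i => sub_mem ((h.fx.mem σ).2 (a1 i)) (a1 i), by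
      have := g.2 σ
      rw [a2, map_sum] at this
      simp only [map_mul, hz _ σ] at this
      simp only [Pi.sub_apply, mul_sub, Finset.sum_sub_distrib]
      exact sub_eq_zero.2 this⟩
  refine ⟨fun i => ⟨v i, fun σ => congrFun (b1 σ) i⟩, fun i => (h.O _).2 ?_,
    A.fix.subtype.injective ?_⟩
  · simpa using add_mem (b2 i) (a1 i)
  · simp only [Pi.sub_apply, mul_sub, Finset.sum_sub_distrib] at b3
    simp only [Pi.zero_apply, map_zero, sub_zero, map_sum, map_mul, Subfield.coe_subtype]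
    exact a2.trans (sub_eq_zero.1 b3).symm

omit [Algebra.IsAlgebraic ℚ_[p] ℂ] in
theorem CBox.ovr (c : CBox A n) {t : Fin n → ℚ_[p]} (ht : t ∈ Bl p n) : Ovr (c.b.Φ t) (c.Q t) :=
  ⟨c.fx t ht, c.O t ht, c.ev t ht⟩

/-- The box at a fixed regular point of a stable chart. -/
theorem cbox_at (hB : A.Stb B) (hf : B.FG) (hQ : RS.LocOf B Q) (hx : A.FixL Q) {C : Co L n}
    (hC : Rg C Q) (hz : ∀ i, C.z i ∈ A.fix) : ∃ (e : ℕ) (c : CBox A n), c.Q 0 = Q ∧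
      c.C = scl C (pce_ne (p := p) e) ∧ ∀ t ∈ Bl p n, RS.LocOf B (c.Q t) := by
  obtain ⟨x, h⟩ := exists_pt hx hC.fr
  obtain ⟨e, b, h1, h2, h3, h4⟩ := etb (fxA A B) x (fun i => ⟨C.z i, hz i⟩)
    (fun i => rst (GA.invV_D hz i)) (fxA_fg hB hf) (h.locOf hB hQ)
    (fun i => ⟨(h.O _).2 (hC.st.z i), (algebraMap ℚ_[p] ℂ).injective (by
      rw [h.ev, map_zero, hC.ev])⟩)
    (fun i j => Subtype.ext ((C.dual i j).trans (by split_ifs <;> rfl)))
    (fun i g hg => (h.O _).2 (hC.st.D i g ((h.O g).1 hg))) (h.mx hC hz)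
  obtain ⟨c, rfl, k1, k2⟩ := exists_cbox hB hf b (scl C (pce_ne (p := p) e))
    (fun i => by rw [h2]; simp [scl]) (fun i g => by
      rw [h3, Subfield.coe_mul, coe_rst]
      simp [scl, Algebra.smul_def]) h4
  exact ⟨e, c, (c.ovr zero_Bl).uniq (h1 ▸ h), k1, k2⟩

end Pool.Agent.MP_5d9b3c_ag.P3D
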