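import Pool.Agent.MP_5d9b3c_ag.P3G.Kit
import Pool.Agent.MP_ee8c61_ag.M3BK.Defs

/-!
Fixed coordinates at a fixed point.
-/

namespace Pool.Agent.MP_5d9b3c_ag.P3X

open MP_ee8c61_ag MP_ee8c61_ag.M3 MP_ee8c61_ag.M3RESID MP_ee8c61_ag.M3BK P3 Finset
open Pool.Agent.MP_96693b_ag.RS (Loc)

noncomputable section

namespace FixcX

variable {L : Type} [Field L] [Algebra ℂ L] {n : ℕ} {C : Co L n} {Q : Loc L}

/-- One coordinate is replaced. -/
def rp (C : Co L n) (l : Fin n) (g : L) (h : C.D l g ≠ 0) : Co L n where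
  z := Function.update C.z l g
  D i := if i = l then (C.D l g)⁻¹ • C.D l else C.D i - (C.D i g / C.D l g) • C.D l
  ne i := by
    by_cases e : i = l
    · rw [e, Function.update_self]
      exact fun q => h (by rw [q, map_zero])
    · rw [Function.update_of_ne e]
      exact C.ne i
  dual i j := by
    by_cases e : i = l <;> by_cases e' : j = l
    · simp [e, e', h]
    · simp [e, Function.update_of_ne e', C.dual, Ne.symm e']
    · simp [e, e', h]
    · simp [e, Function.update_of_ne e', C.dual, Ne.symm e']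
  span v hv := by
    have h1 : ∀ i, i ≠ l → v (C.z i) = 0 := fun i e => Function.update_of_ne e g C.z ▸ hv i
    have h2 := hv l
    rw [Function.update_self, C.exp_apply,
      Fintype.sum_eq_single l fun i e => by rw [h1 i e, zero_mul]] at h2
    refine C.span v fun i => ?_
    by_cases e : i = l
    · exact e ▸ (mul_eq_zero.1 h2).resolve_right h
    · exact h1 i e

theorem mem_of_ne {g : L} (h : Q.ev g ≠ 0) : g ∈ Q.O := by_contra fun q => h (Q.ev_out g q)

theorem ne_of_ne {g : L} (h : Q.ev g ≠ 0) : g ≠ 0 := fun q => h (q ▸ (zero_mem Q.m).2)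

theorem zm (hC : Rg C Q) (i : Fin n) {a : L} (ha : a ∈ Q.O) : C.z i * a ∈ Q.m :=
  mul_comm a _ ▸ Q.m.smul_mem ⟨a, ha⟩ ⟨hC.st.z i, hC.ev i⟩

theorem ev_D (hC : Rg C Q) {h : Fin n → L} (hh : ∀ i, h i ∈ Q.O) (l : Fin n) :
    Q.ev (C.D l (∑ i, C.z i * h i)) = Q.ev (h l) := by
  have e : C.D l (∑ i, C.z i * h i) = ∑ i, C.z i * C.D l (h i) + h l := by
    simp [map_sum, sum_add_distrib, C.dual]
  have m : ∑ i, C.z i * C.D l (h i) ∈ Q.m := sum_mem fun i _ => zm hC i (hC.st.D l _ (hh i))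
  rw [e, Q.ev_add _ m.1 _ (hh l), m.2, zero_add]

theorem repl (hC : Rg C Q) {l : Fin n} {g : L} (hg : g ∈ Q.m) (h : Q.ev (C.D l g) ≠ 0) :
    Rg (rp C l g (ne_of_ne h)) Q := by
  have i1 := Q.inv_mem _ (mem_of_ne h) h
  refine ⟨⟨fun i => ?_, fun i x hx => ?_⟩, fun i => ?_, fun f f1 f2 => ?_, hC.fr⟩
  · by_cases e : i = l
    · simpa [rp, e] using hg.1
    · simpa [rp, e] using hC.st.z i
  · by_cases e : i = l
    · simpa [rp, e] using mul_mem i1 (hC.st.D l x hx)
    · simpa [rp, e, div_eq_mul_inv] using sub_mem (hC.st.D i x hx)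
        (mul_mem (mul_mem (hC.st.D i g hg.1) i1) (hC.st.D l x hx))
  · by_cases e : i = l
    · simpa [rp, e] using hg.2
    · simpa [rp, e] using hC.ev i
  obtain ⟨a, a1, rfl⟩ := hC.mx f f1 f2
  obtain ⟨b, b1, b2⟩ := hC.mx g hg.1 hg.2
  have b3 : Q.ev (b l) ≠ 0 := by rwa [b2, ev_D hC b1] at h
  have c1 : a l * (b l)⁻¹ ∈ Q.O := mul_mem (a1 l) (Q.inv_mem _ (b1 l) b3)
  refine ⟨fun i => if i = l then a l * (b l)⁻¹ else a i - b i * (a l * (b l)⁻¹), fun i => ?_, ?_⟩
  · dsimp only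
    split_ifs
    exacts [c1, sub_mem (a1 i) (mul_mem (b1 i) c1)]
  have e : ∀ i, (rp C l g (ne_of_ne h)).z i *
      (if i = l then a l * (b l)⁻¹ else a i - b i * (a l * (b l)⁻¹)) =
      C.z i * a i - C.z i * b i * (a l * (b l)⁻¹) +
        if i = l then g * (a l * (b l)⁻¹) else 0 := fun i => by
    by_cases e : i = l
    · have := ne_of_ne b3
      simp only [rp, e, Function.update_self, if_true]
      field_simp
      ring
    · simp only [rp, e, Function.update_of_ne e, if_false]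
      ring
  simp only [e, sum_add_distrib, sum_sub_distrib, ← sum_mul, ← b2, sum_ite_eq', mem_univ, if_true]
  ring

end FixcX

open FixcX in
theorem fixc {F L : Type} [Field F] [Algebra F ℂ] [Algebra.IsAlgebraic F ℂ] [Field L]
    [Algebra ℂ L] {n : ℕ} (A : GA F L) (C : Co L n) (Q : Loc L) (S : Set (Fin n))
    (y : Fin n → L) (hC : Rg C Q) (hQ : A.FixL Q)
    (hy : ∀ i ∈ S, y i ∈ A.fix ∧ Q.ev (y i / C.z i) ≠ 0) :
    ∃ C' : Co L n, Rg C' Q ∧ (∀ i, C'.z i ∈ A.fix) ∧ ∀ i ∈ S, C'.z i = y i := by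
  have key : ∀ T : Finset (Fin n), ∃ C' : Co L n, Rg C' Q ∧
      (∀ i ∈ T, C'.z i ∈ A.fix ∧ (i ∈ S → C'.z i = y i)) ∧ ∀ i ∉ T, C'.z i = C.z i := by
    intro T
    induction T using Finset.induction_on with
    | empty => exact ⟨C, hC, by simp, fun _ _ => rfl⟩
    | insert l T hl ih =>
      obtain ⟨B, b1, b2, b3⟩ := ih
      obtain ⟨g, g1, g2, g3, g4⟩ : ∃ g ∈ Q.m, Q.ev (B.D l g) ≠ 0 ∧ g ∈ A.fix ∧
          (l ∈ S → g = y l) := by
        by_cases hS : l ∈ S
        · obtain ⟨y1, y2⟩ := hy l hS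
          rw [← b3 l hl] at y2
          have e : y l = B.z l * (y l / B.z l) := (mul_div_cancel₀ _ (B.ne l)).symm
          refine ⟨y l, e ▸ zm b1 l (mem_of_ne y2), ?_, y1, fun _ => rfl⟩
          have := ev_D b1 (h := Pi.single l (y l / B.z l)) (fun i => by
            by_cases q : i = l
            · simpa [q] using mem_of_ne y2
            · simp [q]) l
          rw [Fintype.sum_eq_single l fun i q => by simp [q], Pi.single_eq_same, ← e] at this
          exact this ▸ y2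
        · obtain ⟨g, g1, g2, g3⟩ := A.sa.exists_fx (W := Q.m.restrictScalars ℂ)
            (W' := (Q.m.restrictScalars ℂ).comap (B.D l : L →ₗ[ℂ] L)) (fun σ x hx =>
              ⟨(hQ.mem σ).2 hx.1, (hQ.ev σ x).trans (by rw [hx.2, map_zero])⟩) (x := B.z l)
            ⟨b1.st.z l, b1.ev l⟩ fun q => by
              have : Q.ev (B.D l (B.z l)) = 0 := q.2
              rw [B.dual, if_pos rfl, ← map_one (algebraMap ℂ L), Q.ev_alg] at this
              exact one_ne_zero this
          exact ⟨g, g1, fun q => g3 ⟨b1.st.D l g g1.1, q⟩, g2, fun q => absurd q hS⟩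
      refine ⟨_, repl b1 g1 g2, fun i hi => ?_, fun i hi => ?_⟩
      · rcases mem_insert.1 hi with rfl | hi
        · simpa [rp] using ⟨g3, g4⟩
        · simpa [rp, ne_of_mem_of_not_mem hi hl] using b2 i hi
      · rw [mem_insert, not_or] at hi
        simpa [rp, hi.1] using b3 i hi.2
  obtain ⟨C', h1, h2, -⟩ := key univ
  exact ⟨C', h1, fun i => (h2 i (mem_univ i)).1, fun i => (h2 i (mem_univ i)).2⟩

end

end Pool.Agent.MP_5d9b3c_ag.P3X
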