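import Pool.Agent.MP_5d9b3c_ag.P3X.SubC
import Pool.Agent.MP_5d9b3c_ag.P3X.CovS
import Pool.Agent.MP_5d9b3c_ag.P3K.Asm

/-! The integral fixed points of a stable model form a finite disjoint union of small boxes. -/

namespace Pool.Agent.MP_5d9b3c_ag.P3D

open MP_ee8c61_ag M3 M3RESID M3BK P3 P3K P3T Set
open Pool.Agent.MP_96693b_ag.RS (Loc)
open Pool.Agent.MP_96693b_ag

noncomputable section

variable {p : ℕ} [Fact p.Prime] [Algebra ℚ_[p] ℂ]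

section

variable {L : Type} [Field L] [Algebra ℂ L] {n : ℕ} {A : GA ℚ_[p] L} {w : Pt p A.fix}
  {V : ValuationSubring L}

/-- The valuation ring `V` dominates the point `w` of the fixed field. -/
structure Vd (w : Pt p A.fix) (V : ValuationSubring L) : Prop where
  le : ∀ g ∈ w.O, (g : L) ∈ V
  dm : ∀ g ∈ w.O, w.ev g = 0 → ¬Un V (g : L)
  cst : ∀ c : ℂ, algebraMap ℂ L c ∈ V

namespace Vd

/-- The maximal ideal as a vector space. -/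
def nu (h : Vd w V) : Submodule ℂ L where
  carrier := {g | g ∈ V ∧ ¬Un V g}
  add_mem' := fun a b => ⟨add_mem a.1 b.1, not_un_add a.1 b.1 a.2 b.2⟩
  zero_mem' := ⟨zero_mem _, not_un_zero⟩
  smul_mem' := fun c _ a => by
    rw [Algebra.smul_def]
    exact ⟨mul_mem (h.cst c) a.1, not_un_mul (h.cst c) a.1 a.2⟩

theorem sub_ev (h : Vd w V) {g : A.fix} (hg : g ∈ w.O) :
    ((g - algebraMap ℚ_[p] A.fix (w.ev g) : A.fix) : L) ∈ h.nu :=
  have a := sub_mem hg (w.O.algebraMap_mem (w.ev g))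
  ⟨h.le _ a, h.dm _ a (by rw [w.ev_sub hg (w.O.algebraMap_mem _), w.ev_alg, sub_self])⟩

theorem ev_of (h : Vd w V) {Q : Loc L} (hQ : Le Q V) {g : L} (hg : g ∈ Q.O) {c : ℂ}
    (e : g - algebraMap ℂ L c ∈ h.nu) : Q.ev g = c := by
  by_contra k
  refine e.2 (RSurf.un_of_ev hQ ?_)
  rw [RS.Loc.ev_sub hg (Q.O.algebraMap_mem _), Q.ev_alg]
  exact sub_ne_zero.2 k

theorem un (h : Vd w V) {c : ℂ} (hc : c ≠ 0) {g : L} (e : g - algebraMap ℂ L c ∈ h.nu) :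
    Un V g := by
  have := Un.add ⟨(map_ne_zero _).2 hc, h.cst c, map_inv₀ (algebraMap ℂ L) c ▸ h.cst _⟩ e.1 e.2
  rwa [add_sub_cancel] at this

theorem mem (h : Vd w V) (hw : ∀ g, g ∈ w.O ∨ g⁻¹ ∈ w.O) {g : A.fix} (hg : (g : L) ∈ V) :
    g ∈ w.O := by
  by_contra k
  have a := (hw g).resolve_left k
  refine h.dm _ a (by_contra fun e => k (inv_inv g ▸ w.inv_mem _ a e)) ⟨fun e => k ?_, h.le _ a, ?_⟩
  · rw [inv_eq_zero.1 (Subtype.ext e : g⁻¹ = 0)]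
    exact zero_mem _
  · rwa [Subfield.coe_inv, inv_inv]

end Vd

variable [Algebra.IsAlgebraic ℚ_[p] ℂ]

theorem exists_vd (w : Pt p A.fix) : ∃ V, Vd w V := by
  let I : Ideal (w.O.toSubring.map A.fix.subtype) :=
    { carrier := {g | ∃ y ∈ w.O, w.ev y = 0 ∧ (y : L) = g}
      add_mem' := fun ⟨y, y1, y2, y3⟩ ⟨z, z1, z2, z3⟩ => ⟨y + z, add_mem y1 z1,
        by rw [w.ev_add _ y1 _ z1, y2, z2, add_zero], congrArg₂ (· + ·) y3 z3⟩
      zero_mem' := ⟨0, zero_mem _, w.ev_zero, rfl⟩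
      smul_mem' := fun ⟨_, z, z1, z3⟩ _ ⟨y, y1, y2, y3⟩ => ⟨z * y, mul_mem z1 y1,
        by rw [w.ev_mul _ z1 _ y1, y2, mul_zero], congrArg₂ (· * ·) z3 y3⟩ }
  obtain ⟨V, h1, h2⟩ := Ideal.image_subset_nonunits_valuationSubring I
    ((Ideal.ne_top_iff_one _).2 fun ⟨y, _, y2, y3⟩ => one_ne_zero
      (w.ev_one.symm.trans ((Subtype.ext y3 : y = 1) ▸ y2)))
  have le : ∀ g ∈ w.O, (g : L) ∈ V := fun g hg => h1 ⟨g, hg, rfl⟩
  refine ⟨V, le, fun g hg h0 e => absurd (un_iff.1 e) (V.mem_nonunits_iff.1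
    (h2 ⟨⟨g, g, hg, rfl⟩, ⟨g, hg, h0, rfl⟩, rfl⟩)).ne, fun c => ?_⟩
  obtain ⟨P, P1, P2⟩ := (Algebra.IsAlgebraic.isAlgebraic (R := ℚ_[p]) c).isIntegral
  let φ : ℚ_[p] →+* V := ((algebraMap ℂ L).comp (algebraMap ℚ_[p] ℂ)).codRestrict V fun a =>
    le _ (w.O.algebraMap_mem a)
  obtain ⟨y, e⟩ := (IsIntegrallyClosed.isIntegral_iff (R := V) (K := L)
    (x := algebraMap ℂ L c)).1 ⟨P.map φ, P1.map φ, by
      rw [Polynomial.eval₂_map]
      exact (Polynomial.hom_eval₂ P _ (algebraMap ℂ L) c).symm.trans (by rw [P2, map_zero])⟩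
  exact e ▸ y.2

namespace Vd

theorem dom (h : Vd w V) (c : CBox A n) {t : Fin n → ℚ_[p]} (ht : t ∈ Bl p n)
    (hw : c.b.Φ t ≤ w) : Dm (c.Q t) V := by
  have k : (c.Q t).m.restrictScalars ℂ ≤ h.nu := A.sa.desc_le (fun σ x hx =>
    ⟨((c.fx t ht).mem σ).2 hx.1, ((c.fx t ht).ev σ x).trans (by rw [hx.2, map_zero])⟩)
    fun g hg hf => by
      have a := (c.O t ht ⟨g, hf⟩).2 hg.1
      exact ⟨h.le _ (hw a), h.dm _ (hw a) ((Pt.ev_eq hw a).trans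
        ((map_eq_zero _).1 ((c.ev t ht ⟨g, hf⟩).trans hg.2)))⟩
  refine ⟨fun g hg => ?_, fun g hg h0 => (k (x := g) ⟨hg, h0⟩).2⟩
  have a := (c.Q t).O.algebraMap_mem ((c.Q t).ev g)
  simpa using add_mem (k (x := g - _) ⟨sub_mem hg a, by
    rw [RS.Loc.ev_sub hg a, (c.Q t).ev_alg, sub_self]⟩).1 (h.cst ((c.Q t).ev g))

variable (h : Vd w V) (hw : ∀ g, g ∈ w.O ∨ g⁻¹ ∈ w.O)

include h hw

/-- Every function is a fixed function times a unit whose conjugates are units. -/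
theorem dec {g : L} (g0 : g ≠ 0) : ∃ y : A.fix, y ≠ 0 ∧ ∃ c : ℂ, c ≠ 0 ∧
    ∀ σ, A.ρ σ (g / y) - algebraMap ℂ L (σ c) ∈ h.nu := by
  obtain ⟨m, a, v, rfl⟩ := Submodule.mem_span_set'.1
    (A.span_fix ▸ Submodule.mem_top : g ∈ Submodule.span ℂ (A.fix : Set L))
  have := FiniteDimensional.span_of_finite ℚ_[p] (finite_range a)
  let b := Module.finBasis ℚ_[p] (Submodule.span ℚ_[p] (range a))
  have li := Fintype.linearIndependent_iff.1 (b.linearIndependent.map' _ (Submodule.ker_subtype _))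
  choose r hr using fun i => (⟨_, (congrArg Subtype.val (b.sum_repr
    ⟨a i, Submodule.subset_span (mem_range_self i)⟩)).symm⟩ :
      ∃ r : _ → ℚ_[p], a i = ((∑ k, r k • b k : Submodule.span ℚ_[p] (range a)) : ℂ))
  let y : _ → A.fix := fun k => ∑ i, algebraMap ℚ_[p] A.fix (r i k) * ⟨v i, (v i).2⟩
  have e : ∑ i, a i • (v i : L) = ∑ k, (b k : ℂ) • (y k : L) := by
    simp only [y, hr, Submodule.coe_sum, AddSubmonoidClass.coe_finsetSum, Finset.sum_smul,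
      Finset.smul_sum]
    rw [Finset.sum_comm]
    refine Finset.sum_congr rfl fun k _ => Finset.sum_congr rfl fun i _ => ?_
    rw [Subfield.coe_mul, coe_alg, Submodule.coe_smul, Algebra.smul_def, Algebra.smul_def,
      Algebra.smul_def, map_mul]
    ring
  rw [e] at g0 ⊢
  obtain ⟨k₀, -, k0⟩ := Finset.exists_ne_zero_of_sum_ne_zero g0
  have : Nonempty _ := ⟨k₀⟩
  obtain ⟨j, hj⟩ := Finite.exists_max fun k => V.valuation (y k)
  choose u d using fun k => (V.valuation_le_iff _ _).1 (hj k)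
  have j0 : (y j : L) ≠ 0 := fun q => k0 (by rw [← d, q, mul_zero, smul_zero])
  have j1 : y j ≠ 0 := fun q => j0 (congrArg Subtype.val q)
  have o : ∀ k, y k / y j ∈ w.O := fun k => h.mem hw (by
    rw [Subfield.coe_div, ← d k, mul_div_cancel_right₀ _ j0]
    exact (u k).2)
  refine ⟨y j, j1, ∑ k, w.ev (y k / y j) • (b k : ℂ), fun q => one_ne_zero (α := ℚ_[p]) ?_,
    fun σ => ?_⟩
  · have := li _ q j
    rwa [div_self j1, w.ev_one] at this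
  rw [Finset.sum_div, map_sum, map_sum, map_sum, ← Finset.sum_sub_distrib]
  refine sum_mem fun k _ => ?_
  have := h.nu.smul_mem (σ (b k)) (h.sub_ev (o k))
  rwa [Subfield.coe_sub, coe_alg, smul_sub, ← (y k / y j).2 σ, ← A.smul, Subfield.coe_div,
    ← smul_div_assoc, Algebra.smul_def (σ _), ← map_mul, ← σ.commutes, ← map_mul,
    mul_comm (b k : ℂ), ← Algebra.smul_def] at this

theorem stb (σ : Gm ℚ_[p]) {g : L} (hg : g ∈ V) : A.ρ σ g ∈ V := by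
  by_cases g0 : g = 0
  · rw [g0, map_zero]
    exact zero_mem _
  obtain ⟨y, y0, c, c0, k⟩ := h.dec hw g0
  have y1 : (y : L) ≠ 0 := fun q => y0 (Subtype.ext q)
  have u : ∀ τ, A.ρ τ g ∈ V ↔ (y : L) ∈ V := fun τ => by
    rw [← (h.un ((map_ne_zero τ).2 c0) (k τ)).mem_iff (g := (y : L)), map_div₀, y.2 τ,
      mul_div_cancel₀ _ y1]
  exact (u σ).2 ((u 1).1 (by simpa using hg))

theorem res {g : L} (hg : g ∈ V) : ∃ c, g - algebraMap ℂ L c ∈ h.nu := by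
  by_cases g0 : g = 0
  · exact ⟨0, by simp [g0]⟩
  obtain ⟨y, y0, c, c0, k⟩ := h.dec hw g0
  have y1 : (y : L) ≠ 0 := fun q => y0 (Subtype.ext q)
  have k1 : g / y - algebraMap ℂ L c ∈ h.nu := by simpa using k 1
  have y2 : (y : L) ∈ V := (h.un c0 k1).mem_iff.1 (by rwa [mul_div_cancel₀ _ y1])
  have := add_mem (show y * (g / y - algebraMap ℂ L c) ∈ h.nu from
    ⟨mul_mem y2 k1.1, not_un_mul y2 k1.1 k1.2⟩) (h.nu.smul_mem c (h.sub_ev (h.mem hw y2)))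
  refine ⟨c * algebraMap ℚ_[p] ℂ (w.ev y), ?_⟩
  rwa [Subfield.coe_sub, coe_alg, Algebra.smul_def, mul_sub, mul_sub, mul_div_cancel₀ _ y1,
    mul_comm (y : L), sub_add_sub_cancel, ← map_mul] at this

theorem dm_of {Q : Loc L} (hQ : Le Q V) : Dm Q V := ⟨hQ, fun g hg h0 => by
  obtain ⟨c, e⟩ := h.res hw (hQ g hg)
  rw [← h.ev_of hQ hg e, h0, map_zero, sub_zero] at e
  exact e.2⟩

end Vd

end

variable [Algebra.IsAlgebraic ℚ_[p] ℂ] {f₀ : Po 3} {M : Mod 3} {f : (AK p).fix}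

theorem Ad.pts {c : CBox (AK p) 3} {lab : Fin 3 → Option M.J} (H : Ad M f c lab)
    {t : Fin 3 → ℚ_[p]} (ht : t ∈ Bl p 3) : c.Q t ∈ M.pts := H.pt.imp fun _ h => h t ht

/-- A valuation of the fixed field has its centre at a fixed point. -/
theorem exists_cen (hM : M.OK f₀) (Bs : M3E.Bas f₀ M) (hS : Stp p M) (w : Pt p (AK p).fix)
    (hw : ∀ g, g ∈ w.O ∨ g⁻¹ ∈ w.O) (hi : ∀ c ∈ range (xK p), c ∈ w.O ∧ ‖w.ev c‖ ≤ 1) :
    ∃ Q ∈ M.pts, (AK p).FixL Q ∧ IntP p Q ∧ ∀ g : (AK p).fix, (g : KK 3) ∈ Q.O → g ∈ w.O := by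
  obtain ⟨V, h⟩ := exists_vd w
  obtain ⟨b, hb⟩ := hM.cov V fun q => by
    induction q using MvPolynomial.induction_on with
    | C c => exact ((ip 3).commutes c).symm ▸ h.cst c
    | add q r a a' => exact map_add (ip 3) q r ▸ add_mem a a'
    | mul_X q l a => exact map_mul (ip 3) q _ ▸ mul_mem a (h.le _ (hi _ ⟨l, rfl⟩).1)
  obtain ⟨Q, h1, h2⟩ := RSurf.exists_le (M3RESID.chart_fg hM b) hb
  refine ⟨Q, ⟨b, h1⟩, fun σ => (RSurf.sep Bs ⟨b, h1⟩ (hS σ Q ⟨b, h1⟩) (h.dm_of hw h2)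
    fun g hg => ?_).symm, fun l => ⟨_, (hi _ ⟨l, rfl⟩).2,
      h.ev_of h2 (h1.le (hM.pol b _)) (h.sub_ev (hi _ ⟨l, rfl⟩).1)⟩,
    fun g hg => h.mem hw (h2 _ hg)⟩
  exact ((AK p).si σ).e_symm_e g ▸ h.stb hw σ (h2 _ hg)

theorem Bxs.ig (H : Bxs M f) (hM : M.OK f₀) {Q : Loc (KK 3)} (hQ : Q ∈ M.pts)
    (h1 : (AK p).FixL Q) (h2 : IntP p Q) : ∃ c lab, Ad M f c lab ∧ Ig c ∧ c.Q 0 = Q := by
  obtain ⟨c, lab, h3, rfl⟩ := H Q hQ h1 h2
  obtain ⟨e, c', h4, h5⟩ := (CBox.ev_box (c := c) (Box.ev_pt zero_bl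
    (q := fun x => ∀ l, xK p l ∈ x.O ∧ ‖x.ev (xK p l)‖ ≤ 1) (Filter.eventually_all.2 fun l => by
      obtain ⟨a, a1, a2⟩ := h2 l
      refine (Pt.nhds_mem ((c.O 0 zero_bl _).2 (hQ.choose_spec.le (hM.pol _ _)))
        ((IsUltrametricDist.isOpen_closedBall 0 one_ne_zero).mem_nhds
          (mem_closedBall_zero_iff.2 ?_))).mono
        fun _ k => ⟨k.1, mem_closedBall_zero_iff.1 k.2⟩
      rwa [(algebraMap ℚ_[p] ℂ).injective ((c.ev 0 zero_bl _).trans a2)]))).ex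
  exact ⟨c', lab, h3.sub0 h4, h5, h4.zero⟩

omit [Algebra ℚ_[p] ℂ] [Algebra.IsAlgebraic ℚ_[p] ℂ] in
theorem isSub_rest {L : Type} [Field L] [Algebra ℚ_[p] L] {n : ℕ} {b b₁ b' : Box p L n}
    {a : Fin n → ℚ_[p]} {e e' : ℕ} (h₁ : b.IsSub a e b₁) (h : b.IsSub a (e + e') b') :
    b₁.IsSub 0 e' b' where
  mem := zero_bl
  z i := by rw [h.z, h₁.z, Pi.zero_apply, map_zero, sub_zero, div_div, pow_add]
  Φ t ht := by rw [h.Φ t ht, h₁.Φ _ (aff_bl zero_bl ht), zero_add, smul_smul, pow_add]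

variable (p)

theorem xFAM (hB : M3E.SBas) : XFAM p := by
  intro f₀ M f E hM hS hX hE
  have Bs := hB 3 f₀ M hM
  let K : Set (Pt p (AK p).fix) :=
    {x | ∃ c lab, Ad M f c lab ∧ Ig c ∧ ∃ t ∈ Bl p 3, c.b.Φ t = x}
  have sp : SepS K := by
    rintro _ ⟨c, lab, h1, -, t, ht, rfl⟩ _ ⟨c', lab', k1, -, s, hs, rfl⟩ w a a'
    obtain ⟨V, h⟩ := exists_vd w
    exact CBox.Φ_eq ht hs (RSurf.sep Bs (h1.pts ht) (k1.pts hs) (h.dom c ht a) (h.dom c' hs a').1)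
  have cp : IsCompact K := cpt (n := 3) K (range (xK p)) sp
    (by rintro _ ⟨c, lab, -, h2, t, ht, rfl⟩ _ ⟨l, rfl⟩; exact h2 t ht l)
    (fun w hw hi => by
      obtain ⟨Q, h1, h2, h3, h4⟩ := exists_cen hM Bs hS w hw hi
      obtain ⟨c, lab, k1, k2, rfl⟩ := hX.ig hM h1 h2 h3
      exact ⟨_, ⟨c, lab, k1, k2, 0, zero_bl, rfl⟩, fun g hg => h4 g ((c.O 0 zero_bl g).1 hg)⟩)
    fun x ⟨c, lab, h1, h2, h3⟩ => ⟨c.b, h3, fun t ht => ⟨c, lab, h1, h2, t, ht, rfl⟩⟩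
  obtain ⟨ι, _, b, h1, h2, -, h4⟩ := ref K (fun b => ∃ c lab, c.b = b ∧ Ad M f c lab ∧ Ig c ∧
    CrvB c lab ∧ E c lab) cp sp fun x ⟨c, lab, h1, h2, h3⟩ =>
      ⟨c.b, h3, fun t ht => ⟨c, lab, h1, h2, t, ht, rfl⟩, fun a ha => by
        obtain ⟨e₁, n1⟩ := nm_ev a
        obtain ⟨c₁, s1⟩ := c.exists_sub ha e₁
        have a1 := h1.sub s1 (n1 e₁ le_rfl)
        obtain ⟨e₀, k⟩ := hE c₁ _ a1 (h2.sub s1)
        refine ⟨e₁ + e₀, fun e he b' hb => ?_⟩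
        obtain ⟨e', rfl⟩ := Nat.exists_eq_add_of_le (le_of_add_le_left he)
        have s2 := c₁.sub_isSub (isSub_rest s1.sub hb)
        exact ⟨_, _, rfl, a1.sub0 s2, (h2.sub s1).sub s2,
          k e' (Nat.le_of_add_le_add_left he) _ s2⟩⟩
  choose c lab k1 k2 k3 k4 k5 using h1
  obtain rfl : b = fun i => (c i).b := funext fun i => (k1 i).symm
  refine ⟨⟨ι, inferInstance, c, lab, fun i => (k2 i).inj, fun i => (k2 i).pt, fun i => (k2 i).inv,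
    fun i => (k2 i).dat, fun i => (k2 i).on, fun i => (k2 i).mf, fun i => (k2 i).mj,
    fun i j t ht s hs e => h2 i j t ht s hs _ e.le le_rfl, ?_, fun Q q1 q2 q3 => ?_, k4⟩, k5⟩
  · rintro i t ht _ ⟨l, rfl⟩
    exact k3 i t ht l
  · obtain ⟨d, lb, a1, a2, rfl⟩ := hX.ig hM q1 q2 q3
    obtain ⟨i, t, ht, e⟩ := h4 _ ⟨d, lb, a1, a2, 0, zero_bl, rfl⟩
    exact ⟨i, t, ht, RS.Loc.ext' (le_antisymm (sDOMC p _ _ _ _ _ t ht 0 zero_bl e.le)
      (sDOMC p _ _ _ _ _ 0 zero_bl t ht e.ge))⟩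

end

end Pool.Agent.MP_5d9b3c_ag.P3D
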