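import Pool.Agent.MP_5d9b3c_ag.P3X.Crv
import Pool.Agent.MP_5d9b3c_ag.P3K.Sub
import Pool.Agent.MP_5d9b3c_ag.P3X.FamD

/-! The double curves of small boxes. -/

namespace Pool.Agent.MP_5d9b3c_ag.P3D

open MP_ee8c61_ag M3 M3RESID M3BK P3 P3K P3T Set Filter Topology
open Pool.Agent.MP_96693b_ag.RS (Loc LocOf)
open Pool.Agent.MP_96693b_ag

theorem crv0_small {L : Type} [Field L] [Algebra ℂ L] {n p : ℕ} [Fact p.Prime] [Algebra ℚ_[p] ℂ]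
    [Algebra.IsAlgebraic ℚ_[p] ℂ] {A : GA ℚ_[p] L} {A₀ : Subalgebra ℂ L} (c : CBox A n)
    (hA : A₀.FG) (h : A₀ ≤ (c.Q 0).O) : ∃ e₀ : ℕ, ∀ e, e₀ ≤ e → ∀ c' : CBox A n,
      c.b.IsSub 0 e c'.b → (∀ t ∈ Bl p n, c'.Q t = c.Q (0 + (p : ℚ_[p]) ^ e • t)) →
      ∀ i i', Crv0 c' A₀ i i' := by
  refine (Box.ev_of_nhds (eventually_all.2 fun i => eventually_all.2 fun i' =>
    c.crv_near zero_Bl hA h i i')).imp fun _ H e he c' hb hQ i i' t ht h1 h2 a ha => ?_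
  have hz : ∀ l, c'.C.z l = ((p : L) ^ e)⁻¹ * c.C.z l := fun l => by
    rw [← c'.z, ← c.z, hb.z]
    simp [div_eq_inv_mul]
  have hp : ((p : L) ^ e)⁻¹ ∈ (c.Q 0).O := by
    simpa using (c.Q 0).O.algebraMap_mem ((p : ℂ) ^ e)⁻¹
  rintro ⟨u, hu, v, hv, e1⟩
  rw [hQ 0 zero_Bl, smul_zero, add_zero] at hu hv
  rw [hQ t ht]
  refine H e he t ht i i' (by simp [h1]) (by simp [h2]) a ha
    ⟨_, mul_mem hu hp, _, mul_mem hv hp, ?_⟩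
  rw [e1, hz, hz, sh_zero, mul_assoc, mul_assoc]

theorem xCRV (p : ℕ) [Fact p.Prime] [Algebra ℚ_[p] ℂ] [Algebra.IsAlgebraic ℚ_[p] ℂ] : XCRV p := by
  intro f₀ M f c lab hM h
  obtain ⟨a, ha⟩ := h.pt
  refine (crv0_small c (chart_fg hM a) (ha 0 zero_Bl).le).imp
    fun _ H e he c' hc i m _ _ k _ _ B P h g hf => crv_of (A₀ := M.S.A a) (fun t ht => ?_)
      (H e he c' hc.sub hc.Q i _) hf
  exact hc.Q t ht ▸ ha _ (aff_bl zero_Bl ht)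

end Pool.Agent.MP_5d9b3c_ag.P3D
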