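import Pool.Agent.MP_5d9b3c_ag.P3X.XBox
import Pool.Agent.MP_5d9b3c_ag.P3X.XCrv
import Pool.Agent.MP_5d9b3c_ag.P3X.Fam
import Pool.Agent.MP_5d9b3c_ag.P3R.Out
import Pool.Agent.MP_5d9b3c_ag.P3.Top

/-! Stable models carry families of boxes. -/

namespace Pool.Agent.MP_5d9b3c_ag.P3D

open MP_ee8c61_ag

theorem sBX (p : ℕ) [Fact p.Prime] [Algebra ℚ_[p] ℂ] [Algebra.IsAlgebraic ℚ_[p] ℂ]
    (hE : M3E.EOut) : P3.SBX p := fun _ _ _ _ hM hf he =>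
  sbx_of hE P3R.sb1G' (xBOX hE) (xCRV p) (xFAM p hE.bas) hf he hM

end Pool.Agent.MP_5d9b3c_ag.P3D
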