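import Pool.Agent.MP_5d9b3c_ag.P3D.SpecX
import Pool.Agent.MP_5d9b3c_ag.P3K.Kit
import Pool.Agent.MP_ee8c61_ag.M3BK.RSurfA
import Pool.Agent.MP_ee8c61_ag.M3BK.RCht

/-! The germ of a `p`-adic point in the complex function field. -/

namespace Pool.Agent.MP_5d9b3c_ag.P3D

open MP_ee8c61_ag M3 M3RESID M3BK P3 P3K P3T Set
open Pool.Agent.MP_96693b_ag.RS (Loc)
open Pool.Agent.MP_96693b_ag

noncomputable section

variable {F L k : Type} [Field F] [Algebra F ℂ] [Field L] [Algebra ℂ L] [Field k] [Algebra ℂ k]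

/-- A stable space of functions that is closed under products and does not contain one. -/
structure Gr (A : GA F L) where
  I : Submodule ℂ L
  st : ∀ σ, ∀ g ∈ I, A.ρ σ g ∈ I
  mul : ∀ g ∈ I, ∀ h ∈ I, g * h ∈ I
  one : 1 ∉ I

namespace Gr

variable {A : GA F L} (J : Gr A) {g h : L} {c d : ℂ}

/-- The function `g` has the value `c`. -/
def E (g : L) (c : ℂ) : Prop := g - algebraMap ℂ L c ∈ J.I

/-- The fraction `g` has the value `c`. -/
def N (g : L) (c : ℂ) : Prop := ∃ q d, J.E q d ∧ d ≠ 0 ∧ J.E (g * q) (c * d)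

theorem e_cst (c : ℂ) : J.E (algebraMap ℂ L c) c := by simp [E]

variable {J}

theorem E.add (a : J.E g c) (b : J.E h d) : J.E (g + h) (c + d) := by
  have := add_mem a b
  rwa [sub_add_sub_comm, ← map_add] at this

theorem E.mulI (a : J.E g c) (b : h ∈ J.I) : g * h ∈ J.I := by
  have := add_mem (J.mul _ a _ b) (J.I.smul_mem c b)
  rwa [Algebra.smul_def, ← add_mul, sub_add_cancel] at this

theorem E.mul (a : J.E g c) (b : J.E h d) : J.E (g * h) (c * d) := by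
  have := add_mem (a.mulI b) (J.I.smul_mem d a)
  rw [Algebra.smul_def] at this
  rw [E, map_mul, show g * h - algebraMap ℂ L c * algebraMap ℂ L d =
    g * (h - algebraMap ℂ L d) + algebraMap ℂ L d * (g - algebraMap ℂ L c) by ring]
  exact this

theorem E.uniq (a : J.E g c) (b : J.E g d) : c = d := by
  by_contra e
  have := J.I.smul_mem (d - c)⁻¹ (sub_mem a b)
  rw [sub_sub_sub_cancel_left, ← map_sub, Algebra.smul_def, ← map_mul,
    inv_mul_cancel₀ (sub_ne_zero.2 (Ne.symm e)), map_one] at this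
  exact J.one this

theorem E.conj (a : J.E g c) (σ : Gm F) : J.E (A.ρ σ g) (σ c) := by
  have := J.st σ _ a
  rwa [map_sub, A.semi] at this

variable (J)

/-- The functions that have a value. -/
def S : Subalgebra ℂ L where
  carrier := {g | ∃ c, J.E g c}
  mul_mem' := fun ⟨_, a⟩ ⟨_, b⟩ => ⟨_, a.mul b⟩
  add_mem' := fun ⟨_, a⟩ ⟨_, b⟩ => ⟨_, a.add b⟩
  algebraMap_mem' c := ⟨c, J.e_cst c⟩

theorem val : ∃ V : ValuationSubring L, ∀ g c, J.E g c → g ∈ V ∧ (Un V g ↔ c ≠ 0) := by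
  let I : Ideal J.S :=
    { carrier := {g | g.1 ∈ J.I}
      add_mem' := J.I.add_mem
      zero_mem' := J.I.zero_mem
      smul_mem' := fun a _ hb => a.2.elim fun _ e => e.mulI hb }
  obtain ⟨V, h1, h2⟩ := Ideal.image_subset_nonunits_valuationSubring (A := J.S.toSubring) I
    ((Ideal.ne_top_iff_one _).2 J.one)
  have k : ∀ g ∈ J.I, g ∈ V ∧ ¬Un V g := fun g hg => by
    have e : g ∈ J.S := ⟨0, by simpa [E] using hg⟩
    exact ⟨h1 e, fun u => absurd (un_iff.1 u) (V.mem_nonunits_iff.1 (h2 ⟨⟨g, e⟩, hg, rfl⟩)).ne⟩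
  refine ⟨V, fun g c e => ⟨h1 ⟨c, e⟩, fun u h0 => (k g (by simpa [E, h0] using e)).2 u, fun h0 => ?_⟩⟩
  have := Un.add (V := V) (g := algebraMap ℂ L c) ⟨by simpa using h0, h1 (J.S.algebraMap_mem c),
    map_inv₀ (algebraMap ℂ L) c ▸ h1 (J.S.algebraMap_mem _)⟩ (k _ e).1 (k _ e).2
  rwa [add_sub_cancel] at this

variable {B : GA F k} {P : Pl L k} (H : A.Cpt B P) (J : Gr B)

/-- The pull-back along a place. -/
def up : Gr A where
  I := { carrier := {g | g ∈ P.o.F 0 ∧ P.π g ∈ J.I}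
         add_mem' := fun a b => ⟨add_mem a.1 b.1, P.add _ a.1 _ b.1 ▸ add_mem a.2 b.2⟩
         zero_mem' := ⟨zero_mem _, P.π_zero ▸ zero_mem _⟩
         smul_mem' := fun c g a => by
           rw [Algebra.smul_def]
           refine ⟨F_mul0 (P.cst c).1 a.1, ?_⟩
           rw [P.mul _ (P.cst c).1 _ a.1, P.π_cst, ← Algebra.smul_def]
           exact J.I.smul_mem c a.2 }
  st σ g a := ⟨(H.1.mem σ).2 a.1, H.2 σ g a.1 ▸ J.st σ _ a.2⟩
  mul g a h b := ⟨F_mul0 a.1 b.1, P.mul _ a.1 _ b.1 ▸ J.mul _ a.2 _ b.2⟩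
  one a := J.one (P.π_one ▸ a.2)

variable {H J}

theorem e_up : (up H J).E g c ↔ g ∈ P.o.F 0 ∧ J.E (P.π g) c := by
  refine ⟨fun a => ?_, fun a => ⟨sub_mem a.1 (P.cst c).1, ?_⟩⟩
  · have e : g ∈ P.o.F 0 := by simpa using add_mem a.1 (P.cst c).1
    exact ⟨e, by have := a.2; rwa [Pl.π_sub e (P.cst c).1, P.π_cst] at this⟩
  · rw [Pl.π_sub a.1 (P.cst c).1, P.π_cst]
    exact a.2

theorem n_up (a : (up H J).N g c) : g ∈ P.o.F 0 ∧ J.N (P.π g) c := by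
  obtain ⟨q, d, a1, a2, a3⟩ := a
  rw [e_up] at a1 a3
  have h0 : q ∉ P.o.F 1 := fun e => a2 (a1.2.uniq (by
    rw [(P.ker q a1.1).2 e]
    simpa using J.e_cst 0))
  have h1 := not_or.1 h0
  have h2 := a1.1.resolve_left h1.1
  have hg : g ∈ P.o.F 0 := (P.o.un_O.2 ⟨h1.1, by omega⟩).mem_iff.1 a3.1
  exact ⟨hg, _, d, a1.2, a2, P.mul _ hg _ a1.1 ▸ a3.2⟩

end Gr

variable {p : ℕ} [Fact p.Prime] [Algebra ℚ_[p] ℂ] [Algebra.IsAlgebraic ℚ_[p] ℂ] {B : GA ℚ_[p] k}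

theorem coe_smul (a : ℚ_[p]) (g : B.fix) : ((a • g : B.fix) : k) = algebraMap ℚ_[p] ℂ a • (g : k) := by
  rw [Algebra.smul_def, Algebra.smul_def]
  rfl

/-- A fixed element of the complex span of a `p`-adic space lies in it. -/
theorem mem_of_span (W : Submodule ℚ_[p] B.fix) {g : B.fix}
    (h : (g : k) ∈ Submodule.span ℂ (Subtype.val '' (W : Set B.fix) : Set k)) : g ∈ W := by
  obtain ⟨g', h1, h2⟩ := B.sa.fx_span (s := Subtype.val '' (W : Set B.fix))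
    (by rintro _ ⟨y, -, rfl⟩; exact y.2) (W.toAddSubgroup.map B.fix.subtype.toAddMonoidHom)
    (by rintro a _ ⟨y, hy, rfl⟩; exact ⟨a • y, W.smul_mem a hy, by rw [← coe_smul]; rfl⟩) h g.2
  exact Subtype.ext h2 ▸ h1

/-- The maximal ideal of a point. -/
def mx (x : Pt p B.fix) : Submodule ℚ_[p] B.fix where
  carrier := {g | g ∈ x.O ∧ x.ev g = 0}
  add_mem' := fun a b => ⟨add_mem a.1 b.1, by rw [x.ev_add _ a.1 _ b.1, a.2, b.2, add_zero]⟩
  zero_mem' := ⟨zero_mem _, x.ev_zero⟩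
  smul_mem' := fun c g a => ⟨x.O.smul_mem a.1 c, by rw [x.ev_smul c a.1, a.2, mul_zero]⟩

theorem span_mul {s t : Set k} {g : k} (h : ∀ y ∈ s, g * y ∈ Submodule.span ℂ t) {y : k}
    (hy : y ∈ Submodule.span ℂ s) : g * y ∈ Submodule.span ℂ t :=
  (Submodule.span_le (p := (Submodule.span ℂ t).comap (LinearMap.mulLeft ℂ g))).2 h hy

/-- The germ of a point. -/
def gr (x : Pt p B.fix) : Gr B where
  I := Submodule.span ℂ (Subtype.val '' (mx x : Set B.fix))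
  st := GA.Stb.span (GA.stb_of_fix (by rintro _ ⟨y, -, rfl⟩; exact y.2))
  mul g hg h hh := span_mul (by
    rintro _ ⟨y, hy, rfl⟩
    rw [mul_comm]
    refine span_mul ?_ hg
    rintro _ ⟨z, hz, rfl⟩
    exact Submodule.subset_span ⟨y * z, ⟨mul_mem hy.1 hz.1, by
      rw [x.ev_mul _ hy.1 _ hz.1, hz.2, mul_zero]⟩, by rw [Subfield.coe_mul]⟩) hh
  one h := one_ne_zero (x.ev_one.symm.trans (mem_of_span (mx x) (g := 1) h).2)

variable {x : Pt p B.fix} {g : B.fix} {c : ℂ}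

theorem gr_e (hg : g ∈ x.O) : (gr x).E g (algebraMap ℚ_[p] ℂ (x.ev g)) :=
  Submodule.subset_span ⟨g - algebraMap ℚ_[p] B.fix (x.ev g), ⟨sub_mem hg (x.O.algebraMap_mem _),
    by rw [x.ev_sub hg (x.O.algebraMap_mem _), x.ev_alg, sub_self]⟩, rfl⟩

theorem gr_n (h : (gr x).N g c) : g ∈ x.O ∧ algebraMap ℚ_[p] ℂ (x.ev g) = c := by
  obtain ⟨q, d, h1, h2, h3⟩ := h
  let W := x.O.toSubmodule ⊔ (mx x).map (LinearMap.mulLeft ℚ_[p] g)
  have a1 : (gr x).I ≤ Submodule.span ℂ (Subtype.val '' (W : Set B.fix)) := Submodule.span_mono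
    (image_mono fun y hy => Submodule.mem_sup_left hy.1)
  have a2 := span_mul (g := (g : k)) (t := Subtype.val '' (W : Set B.fix)) (by
    rintro _ ⟨y, hy, rfl⟩
    exact Submodule.subset_span ⟨g * y, Submodule.mem_sup_right ⟨y, hy, rfl⟩, rfl⟩) h1
  have a3 : (1 : k) ∈ Submodule.span ℂ (Subtype.val '' (W : Set B.fix)) :=
    Submodule.subset_span ⟨1, Submodule.mem_sup_left x.O.one_mem, rfl⟩
  have a4 := Submodule.smul_mem _ d⁻¹ (sub_mem (add_mem (a1 h3) (Submodule.smul_mem _ (c * d) a3)) a2)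
  rw [← Algebra.algebraMap_eq_smul_one, sub_add_cancel, mul_sub, sub_sub_cancel, mul_comm,
    ← Algebra.smul_def, inv_smul_smul₀ h2] at a4
  obtain ⟨a, ha, _, ⟨m, hm, rfl⟩, e⟩ := Submodule.mem_sup.1 (mem_of_span W a4)
  have h5 : x.ev (1 - m) ≠ 0 := by rw [x.ev_sub (one_mem _) hm.1, hm.2, x.ev_one]; simp
  have hg : g ∈ x.O := by
    rw [show g = a / (1 - m) from (eq_div_iff (Pt.ne_zero h5)).2 (by
      rw [mul_sub, mul_one]; exact (eq_sub_of_add_eq e).symm)]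
    exact Pt.div_mem ha h5
  exact ⟨hg, mul_right_cancel₀ h2 (((gr_e hg).mul h1).uniq h3)⟩

/-- At general points finitely many given functions have values. -/
theorem gr_gen (B : GA ℚ_[p] k) (T : Finset k) : ∃ Y : Finset B.fix, 0 ∉ Y ∧ ∀ x : Pt p B.fix,
    (∀ y ∈ Y, x.ev y ≠ 0) → ∀ t ∈ T, t ∈ (gr x).S := by
  classical
  obtain ⟨t, h1, h2⟩ := B.fix_gen (W := ⊤) (fun _ _ _ => trivial) (s := T) fun _ _ => trivial
  refine ⟨(t.subtype (· ∈ B.fix)).erase 0, Finset.notMem_erase _ _, fun x hx y hy => ?_⟩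
  refine (Submodule.span_le (p := (gr x).S.toSubmodule)).2 (fun s hs => ?_) (h2 y hy)
  by_cases e : s = 0
  · exact e ▸ zero_mem (gr x).S
  · exact ⟨_, gr_e (g := ⟨s, (h1 s hs).1⟩) (Pt.mem_of_ne (hx _ (Finset.mem_erase.2
      ⟨fun e' => e (congrArg Subtype.val e'), Finset.mem_subtype.2 hs⟩)))⟩

/-- The centre of a germ on a stable model is a fixed point. -/
theorem Gr.pt {f : Po 3} {M : Mod 3} (hM : M.OK f) (hB : M3E.Bas f M) (hS : Stp p M)
    (J : Gr (AK p)) {a : M.ι} (ha : M.S.A a ≤ J.S) :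
    ∃ Q, RS.LocOf (M.S.A a) Q ∧ (AK p).FixL Q ∧ ∀ g ∈ Q.O, J.N g (Q.ev g) := by
  obtain ⟨V, hV⟩ := J.val
  obtain ⟨Q, h1, h2⟩ := RSurf.exists_le (Cht.chart_fg hM a) (W := V) fun g hg =>
    (ha hg).elim fun c e => (hV g c e).1
  have k : ∀ g ∈ M.S.A a, J.E g (Q.ev g) := fun g hg => (ha hg).elim fun c e => by
    have e' : J.E (g - algebraMap ℂ _ c) 0 := by simpa [Gr.E] using e
    have : Q.ev (g - algebraMap ℂ _ c) = 0 := by_contra fun h =>
      (hV _ _ e').2.1 (RSurf.un_of_ev h2 h) rfl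
    rw [RS.Loc.ev_sub (h1.le hg) (Q.O.algebraMap_mem _), Q.ev_alg, sub_eq_zero] at this
    exact this ▸ e
  have n : ∀ g ∈ Q.O, J.N g (Q.ev g) := fun g hg => by
    obtain ⟨u, u1, q, q1, q2, e⟩ := h1.frac g hg
    exact ⟨q, _, k q q1, q2, by rw [← Q.ev_mul _ hg _ (h1.le q1), e]; exact k u u1⟩
  refine ⟨Q, h1, fun σ => (RSurf.sep hB ⟨a, h1⟩ (hS σ Q ⟨a, h1⟩) (V := V) ⟨h2, fun g hg h0 u => ?_⟩
    (((AK p).si σ).all.2 fun g hg => ?_)).symm, n⟩
  · obtain ⟨q, d, q1, q2, q3⟩ := n g hg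
    exact (hV _ _ q3).2.1 (u.mul ((hV _ _ q1).2.2 q2)) (by rw [h0, zero_mul])
  · obtain ⟨q, d, q1, q2, q3⟩ := n g (((AK p).si σ).e_mem_sa.1 hg)
    exact ((hV _ _ (q1.conj σ)).2.2 ((map_ne_zero σ).2 q2)).mem_iff.1
      (map_mul ((AK p).ρ σ) g q ▸ (hV _ _ (q3.conj σ)).1)

end

end Pool.Agent.MP_5d9b3c_ag.P3D
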