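import Pool.Agent.MP_5d9b3c_ag.P3X.Face

/-! The complex points over the points of a `p`-adic box. -/

namespace Pool.Agent.MP_5d9b3c_ag.P3D

open MP_ee8c61_ag M3 M3RESID M3BK P3 P3K P3T Set
open Pool.Agent.MP_96693b_ag.RS (Loc)
open Pool.Agent.MP_96693b_ag

variable {L : Type} [Field L] [Algebra ℂ L] {n p : ℕ} [Fact p.Prime] [Algebra ℚ_[p] ℂ]
  {A : GA ℚ_[p] L} {B : Subalgebra ℂ L}

variable (A) in
/-- The fixed part of a ring. -/
def fxA (B : Subalgebra ℂ L) : Subalgebra ℚ_[p] A.fix where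
  carrier := {g | (g : L) ∈ B}
  mul_mem' := fun ha hb => B.mul_mem ha hb
  add_mem' := fun ha hb => B.add_mem ha hb
  algebraMap_mem' := fun _ => B.algebraMap_mem _

theorem mem_fxA {g : A.fix} : g ∈ fxA A B ↔ (g : L) ∈ B := Iff.rfl

/-- The complex point `Q` lies over the point `x` of the fixed field. -/
structure Ovr (x : Pt p A.fix) (Q : Loc L) : Prop where
  fx : A.FixL Q
  O : ∀ g : A.fix, g ∈ x.O ↔ (g : L) ∈ Q.O
  ev : ∀ g : A.fix, algebraMap ℚ_[p] ℂ (x.ev g) = Q.ev g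

variable [Algebra.IsAlgebraic ℚ_[p] ℂ]

theorem stb_ind (hB : A.Stb B) {q : L → Prop} (h0 : ∀ g ∈ B, g ∈ A.fix → q g)
    (h1 : ∀ g ∈ B, ∀ g' ∈ B, q g → q g' → q (g + g')) (h2 : ∀ c : ℂ, ∀ g ∈ B, q g → q (c • g)) :
    ∀ g ∈ B, q g := fun _ hg =>
  (A.sa.desc_le (W := B.toSubmodule) (W' :=
    { carrier := {g | g ∈ B ∧ q g}
      add_mem' := fun ha hb => ⟨add_mem ha.1 hb.1, h1 _ ha.1 _ hb.1 ha.2 hb.2⟩
      zero_mem' := ⟨zero_mem _, h0 0 (zero_mem _) (zero_mem _)⟩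
      smul_mem' := fun c _ ha => ⟨B.smul_mem ha.1 c, h2 c _ ha.1 ha.2⟩ }) hB
    (fun g hg hf => ⟨hg, h0 g hg hf⟩) hg).2

theorem ev_smul (Q : Loc L) (c : ℂ) {g : L} (hg : g ∈ Q.O) : Q.ev (c • g) = c * Q.ev g := by
  rw [Algebra.smul_def, Q.ev_mul _ (Q.O.algebraMap_mem c) _ hg, Q.ev_alg]

/-- A point that contains the fixed part of `B` gives a closed point of `B`. -/
theorem exists_loc (hB : A.Stb B) (hf : B.FG) {x : Pt p A.fix} (hx : fxA A B ≤ x.O) :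
    ∃ Q, RS.LocOf B Q ∧ A.FixL Q ∧ (∀ g ∈ fxA A B, algebraMap ℚ_[p] ℂ (x.ev g) = Q.ev g) ∧
      ∀ g : A.fix, (g : L) ∈ Q.O → ∃ s ∈ fxA A B, x.ev s ≠ 0 ∧ s * g ∈ fxA A B := by
  let S : Set L := {g | ∃ u ∈ fxA A B, x.ev u = 0 ∧ (u : L) = g}
  let I : Ideal B :=
    { carrier := {g | (g : L) ∈ Submodule.span ℂ S}
      add_mem' := fun ha hb => (Submodule.span ℂ S).add_mem ha hb
      zero_mem' := zero_mem (Submodule.span ℂ S)
      smul_mem' := fun a g hg => by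
        refine stb_ind hB (q := fun a => a * g ∈ Submodule.span ℂ S) (fun a ha hf => ?_)
          (fun a _ b _ h h' => add_mul a b _ ▸ add_mem h h')
          (fun c a _ h => smul_mul_assoc c a (g : L) ▸ Submodule.smul_mem _ c h) a a.2
        refine (Submodule.span_le.2 ?_ : _ ≤ (Submodule.span ℂ S).comap (LinearMap.mulLeft ℂ a)) hg
        rintro _ ⟨u, h1, h2, rfl⟩
        exact Submodule.subset_span ⟨⟨a, hf⟩ * u, mul_mem (show ⟨a, hf⟩ ∈ fxA A B from ha) h1, by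
          rw [x.ev_mul _ (hx ha) _ (hx h1), h2, mul_zero], rfl⟩ }
  obtain ⟨Q, hQ, h1, -⟩ := RS.exists_locOf_of_notMem hf (I := I) (r := 1) fun ⟨m, hm⟩ => by
    rw [one_pow] at hm
    let W : AddSubgroup L :=
      { carrier := S
        add_mem' := fun ⟨u, a1, a2, a3⟩ ⟨v, b1, b2, b3⟩ => ⟨u + v, add_mem a1 b1, by
          rw [x.ev_add _ (hx a1) _ (hx b1), a2, b2, add_zero], a3 ▸ b3 ▸ rfl⟩
        zero_mem' := ⟨0, zero_mem _, x.ev_zero, rfl⟩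
        neg_mem' := fun ⟨u, a1, a2, a3⟩ => ⟨-u, neg_mem a1, by
          rw [x.ev_neg (hx a1), a2, neg_zero], a3 ▸ rfl⟩ }
    obtain ⟨u, -, a2, a3⟩ := A.sa.fx_span (s := S) (fun _ ⟨u, _, _, e⟩ => e ▸ u.2) W
      (fun a _ ⟨u, a1, a2, a3⟩ => ⟨a • u, Subalgebra.smul_mem _ a1 a, by
        rw [x.ev_smul a (hx a1), a2, mul_zero], by
        rw [← a3, Algebra.smul_def, Algebra.smul_def]; rfl⟩) hm (A.fix.one_mem)
    rw [show u = 1 from Subtype.ext a3, x.ev_one] at a2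
    exact one_ne_zero a2
  have h2 : ∀ g ∈ fxA A B, algebraMap ℚ_[p] ℂ (x.ev g) = Q.ev g := fun g hg => by
    have a := sub_mem hg ((fxA A B).algebraMap_mem (x.ev g))
    have := h1 ⟨_, a⟩ (Submodule.subset_span ⟨_, a, by
      rw [x.ev_sub (hx hg) (x.O.algebraMap_mem _), x.ev_alg, sub_self], rfl⟩)
    change Q.ev (g - algebraMap ℂ L _) = 0 at this
    rw [RS.Loc.ev_sub (hQ.le hg) (Q.O.algebraMap_mem _), Q.ev_alg, sub_eq_zero] at this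
    exact this.symm
  have h3 : ∀ σ : Gm ℚ_[p], ∀ g ∈ B, Q.ev (A.ρ σ g) = σ (Q.ev g) := fun σ =>
    stb_ind hB (fun g hg hf => by rw [hf σ, ← h2 ⟨g, hf⟩ hg, σ.commutes])
      (fun g hg g' hg' h h' => by
        rw [map_add, Q.ev_add _ (hQ.le (hB σ g hg)) _ (hQ.le (hB σ g' hg')), h, h',
          Q.ev_add _ (hQ.le hg) _ (hQ.le hg'), map_add])
      fun c g hg h => by
        rw [A.smul, ev_smul Q _ (hQ.le (hB σ g hg)), h, ev_smul Q _ (hQ.le hg), map_mul]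
  refine ⟨Q, hQ, fixL_of fun σ g hg => ?_, h2, fun g hg => ?_⟩
  · obtain ⟨a, ha, q, hq, q0, e⟩ := hQ.frac g hg
    have q1 : Q.ev (A.ρ σ q) ≠ 0 := by rwa [h3 σ q hq, map_ne_zero]
    have := mul_mem (hQ.le (hB σ a ha)) (Q.inv_mem _ (hQ.le (hB σ q hq)) q1)
    rwa [← e, map_mul, mul_inv_cancel_right₀ (RS.Loc.ne_zero_of_ev q1)] at this
  · obtain ⟨a, ha, q, hq, q0, e⟩ := hQ.frac g hg
    let U : Submonoid L :=
      { carrier := {u | u ∈ B ∧ Q.ev u ≠ 0}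
        mul_mem' := fun {a b} ha hb => ⟨mul_mem ha.1 hb.1, by
          rw [Q.ev_mul _ (hQ.le ha.1) _ (hQ.le hb.1)]
          exact mul_ne_zero ha.2 hb.2⟩
        one_mem' := ⟨one_mem _, RS.Loc.ev_one.trans_ne one_ne_zero⟩ }
    obtain ⟨t, ht, e'⟩ := A.exists_mul (U := U) (fun σ u hu => ⟨hB σ u hu.1, by
      rw [h3 σ u hu.1, map_ne_zero]
      exact hu.2⟩) (s := q) ⟨hq, q0⟩
    have h4 := mul_mem (show q ∈ U from ⟨hq, q0⟩) ht
    refine ⟨⟨_, e'⟩, h4.1, fun e0 => h4.2 ?_, ?_⟩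
    · rw [← h2 ⟨_, e'⟩ h4.1, e0, map_zero]
    · show q * t * g ∈ B
      rw [mul_right_comm, mul_comm q, e]
      exact mul_mem ha ht.1

theorem exists_ovr (hB : A.Stb B) (hf : B.FG) {x : Pt p A.fix} (hx : LocOf (fxA A B) x) :
    ∃ Q, RS.LocOf B Q ∧ Ovr x Q := by
  obtain ⟨Q, hQ, h1, h2, h3⟩ := exists_loc hB hf hx.le
  have h4 : ∀ s ∈ fxA A B, x.ev s ≠ 0 → Q.ev s ≠ 0 := fun s hs s0 => by
    rwa [← h2 s hs, map_ne_zero]
  have h5 : ∀ g : A.fix, g ∈ x.O ↔ (g : L) ∈ Q.O := fun g => by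
    refine ⟨fun hg => ?_, fun hg => ?_⟩
    · obtain ⟨s, a1, a2, a3⟩ := hx.frac g hg
      have := mul_mem (Q.inv_mem _ (hQ.le a1) (h4 s a1 a2)) (hQ.le a3)
      rwa [Subfield.coe_mul, inv_mul_cancel_left₀ (RS.Loc.ne_zero_of_ev (h4 s a1 a2))] at this
    · obtain ⟨s, a1, a2, a3⟩ := h3 g hg
      have := mul_mem (Pt.inv_mem' a2) (hx.le a3)
      rwa [inv_mul_cancel_left₀ (Pt.ne_zero a2)] at this
  refine ⟨Q, hQ, h1, h5, fun g => ?_⟩
  by_cases hg : g ∈ x.O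
  · obtain ⟨s, a1, a2, a3⟩ := hx.frac g hg
    have := h2 _ a3
    rw [x.ev_mul _ (hx.le a1) _ hg, map_mul, h2 s a1, Subfield.coe_mul,
      Q.ev_mul _ (hQ.le a1) _ ((h5 g).1 hg)] at this
    exact mul_left_cancel₀ (h4 s a1 a2) this
  · rw [x.ev_out _ hg, map_zero, Q.ev_out _ fun e => hg ((h5 g).2 e)]

theorem Ovr.rg {b : Box p A.fix n} {C : Co L n} (hz : ∀ i, (b.z i : L) = C.z i)
    (hD : ∀ i g, (b.D i g : L) = C.D i g) {t : Fin n → ℚ_[p]} (ht : t ∈ Bl p n) {Q : Loc L}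
    (h : Ovr (b.Φ t) Q) : Rg (sh C (up t)) Q := by
  have hs : A.Stb Q.O := fun σ g hg => (h.fx.mem σ).2 hg
  have h1 : ∀ i, C.z i ∈ Q.O := fun i => hz i ▸ (h.O _).1 (b.zm t ht i)
  refine ⟨⟨fun i => sub_mem (h1 i) (Q.O.algebraMap_mem _), fun i => stb_ind hs
    (fun g hg hf => ?_) (fun _ _ _ _ a a' => map_add (C.D i) _ _ ▸ add_mem a a')
    fun c _ _ a => (C.D i).map_smul c _ ▸ Q.O.smul_mem a c⟩, fun i => ?_, fun g hg g0 => ?_,
    fun g => ?_⟩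
  · exact hD i ⟨g, hf⟩ ▸ (h.O _).1 (b.Dm t ht i _ ((h.O ⟨g, hf⟩).2 hg))
  · show Q.ev (_ - _) = 0
    rw [RS.Loc.ev_sub (h1 i) (Q.O.algebraMap_mem _), Q.ev_alg, ← hz, ← h.ev, b.sec t ht, up,
      sub_self]
  · have := stb_ind hs (q := fun g => (sh C (up t)).Mx Q.O (g - algebraMap ℂ L (Q.ev g)))
      (fun g hg hf => ?_) (fun g hg g' hg' ⟨u, a1, a2⟩ ⟨v, b1, b2⟩ => ?_)
      (fun c g hg ⟨u, a1, a2⟩ => ?_) g hg
    · rwa [g0, map_zero, sub_zero] at this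
    · have a := (h.O ⟨g, hf⟩).2 hg
      obtain ⟨u, a1, a2⟩ := b.mx t ht _ (sub_mem a ((b.Φ t).O.algebraMap_mem ((b.Φ t).ev ⟨g, hf⟩)))
        (by rw [Pt.ev_sub _ a ((b.Φ t).O.algebraMap_mem _), Pt.ev_alg, sub_self])
      refine ⟨fun i => u i, fun i => (h.O _).1 (a1 i), ?_⟩
      have := congrArg A.fix.subtype a2
      simp only [map_sub, map_sum, map_mul, Subfield.coe_subtype, hz, coe_alg, h.ev] at this
      exact this
    · refine ⟨fun i => u i + v i, fun i => add_mem (a1 i) (b1 i), ?_⟩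
      rw [Q.ev_add _ hg _ hg', map_add, add_sub_add_comm, a2, b2, ← Finset.sum_add_distrib]
      simp only [mul_add]
    · refine ⟨fun i => c • u i, fun i => Q.O.smul_mem (a1 i) c, ?_⟩
      rw [ev_smul Q c hg, map_mul, ← Algebra.smul_def, ← smul_sub, a2, Finset.smul_sum]
      simp only [mul_smul_comm]
  · refine stb_ind (A := A) (B := ⊤) (fun _ _ _ => trivial)
      (q := fun g => ∃ s ∈ Q.O, s ≠ 0 ∧ s * g ∈ Q.O)
      (fun g _ hf => ?_) (fun g _ g' _ ⟨u, a1, a2, a3⟩ ⟨v, b1, b2, b3⟩ => ?_)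
      (fun c g _ ⟨u, a1, a2, a3⟩ => ⟨u, a1, a2, mul_smul_comm c u g ▸ Q.O.smul_mem a3 c⟩) g trivial
    · obtain ⟨s, a1, a2, a3⟩ := (b.Φ t).fr ⟨g, hf⟩
      exact ⟨s, (h.O _).1 a1, fun e => a2 (Subtype.ext e), (h.O _).1 a3⟩
    · refine ⟨u * v, mul_mem a1 b1, mul_ne_zero a2 b2, ?_⟩
      rw [mul_add, mul_right_comm, mul_assoc u v]
      exact add_mem (mul_mem a3 b1) (mul_mem a1 b3)

/-- A box of the fixed part of a stable chart is a box of fixed points. -/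
theorem exists_cbox (hB : A.Stb B) (hf : B.FG) (b : Box p A.fix n) (C : Co L n)
    (hz : ∀ i, (b.z i : L) = C.z i) (hD : ∀ i g, (b.D i g : L) = C.D i g)
    (hb : ∀ t ∈ Bl p n, LocOf (fxA A B) (b.Φ t)) :
    ∃ c : CBox A n, c.b = b ∧ c.C = C ∧ ∀ t ∈ Bl p n, RS.LocOf B (c.Q t) := by
  have key := fun t ht => exists_ovr hB hf (hb t ht)
  have : Nonempty (Loc L) := ⟨(key 0 zero_Bl).choose⟩
  choose! Q h1 h2 using key
  exact ⟨⟨b, C, Q, hz, hD, fun t ht => (h2 t ht).fx, fun t ht => (h2 t ht).O,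
    fun t ht => (h2 t ht).ev, fun t ht => (h2 t ht).rg hz hD ht⟩, rfl, rfl, h1⟩

end Pool.Agent.MP_5d9b3c_ag.P3D
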