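import Pool.Agent.MP_5d9b3c_ag.P3X.At
import Pool.Agent.MP_5d9b3c_ag.P3X.Up
import Pool.Agent.MP_5d9b3c_ag.P3X.Crv
import Pool.Agent.MP_5d9b3c_ag.P3X.Fixc
import Pool.Agent.MP_5d9b3c_ag.P3D.Rat2
import Pool.Agent.MP_ee8c61_ag.M3BK.RPt
import Pool.Agent.MP_ee8c61_ag.M3B1.Basic

/-! The adapted box at a fixed point of a stable model. -/

namespace Pool.Agent.MP_5d9b3c_ag.P3D

open MP_ee8c61_ag M3 M3RESID M3BK P3 P3K P3T Set Filter Topology RPt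
open Pool.Agent.MP_96693b_ag.RS (Loc LocOf)
open Pool.Agent.MP_96693b_ag

namespace XB

section Gen

variable {L : Type} [Field L] [Algebra ℂ L] {n : ℕ} {Q : Loc L} {C C' : Co L n}

theorem u_cst {u : ℂ} (hu : u ≠ 0) : Q.ev (algebraMap ℂ L u) ≠ 0 := (Q.ev_alg u).trans_ne hu

theorem u_scl {u : ℂ} (hu : u ≠ 0) {i : Fin n} {η : L} (h : Q.ev (C.z i / η) ≠ 0) :
    Q.ev ((scl C hu).z i / η) ≠ 0 := by
  rw [scl_z, mul_div_right_comm]
  exact u_mul h (u_cst (inv_ne_zero hu))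

theorem u_jac (h : Rg C Q) (h' : Rg C' Q) : Q.ev (C.jac C') ≠ 0 := by
  have k : ∀ {C C' : Co L n}, Rg C Q → Rg C' Q → C.jac C' ∈ Q.O := fun h h' =>
    det_mem fun l i => h'.st.D i _ (h.st.z l)
  refine u_of (k h h') ?_ (C.jac_ne C')
  rw [inv_eq_of_mul_eq_one_right ((co_chain C C' C).symm.trans (co_self C))]
  exact k h' h

theorem u_mon {J : Type} {lab : Fin n → Option J} (w : J → ℤ)
    (h : ∀ i, lab i ≠ none → Q.ev (C'.z i / C.z i) ≠ 0) {g : L}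
    (hg : Q.ev (g / C.mon fun i => (lab i).elim 0 w) ≠ 0) :
    Q.ev (g / C'.mon fun i => (lab i).elim 0 w) ≠ 0 := by
  rw [← div_mul_div_cancel₀ (C.mon_ne fun i => (lab i).elim 0 w)]
  refine u_mul hg ?_
  rw [Co.mon, Co.mon, ← Finset.prod_div_distrib]
  refine Finset.prod_induction _ (fun g => Q.ev g ≠ 0) (fun _ _ => u_mul) u_one fun i _ => ?_
  rw [← div_zpow, ← inv_div]
  rcases e : lab i with _ | j
  · simpa using u_one
  · exact u_zpow (u_inv (h i (by simp [e]))) _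

theorem dat_chg (h : Rg C' Q) {o : DV L} {i : Fin n} (hd : C.Dat Q.O o i)
    (hu : Q.ev (C'.z i / C.z i) ≠ 0) : C'.Dat Q.O o i := by
  have h1 := (o.un_O.1 (RSurf.un_of_ev (W := o.O) hd.le hu)).2
  rw [o.div (C'.ne i) (C.ne i), hd.adp.vz] at h1
  refine Co.dat_of h.st (by omega) h.fr hd.le fun g hg g1 => ?_
  have := mul_mem (hd.div g hg g1) (Loc.mem_of_ev (u_inv hu))
  rwa [inv_div, div_mul_div_cancel₀ (C.ne i)] at this

variable {p : ℕ} [Fact p.Prime] [Algebra ℚ_[p] ℂ] {A : GA ℚ_[p] L}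

theorem rg0 (c : CBox A n) : Rg c.C (c.Q 0) := sh_zero (p := p) c.C ▸ c.rg 0 zero_Bl

theorem ev_mon (c : CBox A n) {g : A.fix} {m : Fin n → ℤ}
    (h : (c.Q 0).ev (g / c.C.mon m) ≠ 0) : c.b.Ev 0 fun b => ∃ α, b.Mono g α m := by
  refine Box.ev_mono zero_Bl fun e => h ?_
  have h1 := c.ev 0 zero_Bl (g / ∏ l, (c.b.z l - algebraMap ℚ_[p] _ ((0 : Fin n → ℚ_[p]) l)) ^ m l)
  rw [e, map_zero] at h1
  refine Eq.trans (congrArg _ ?_) h1.symm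
  change _ = A.fix.subtype (g / ∏ l, (c.b.z l - algebraMap ℚ_[p] _ ((0 : Fin n → ℚ_[p]) l)) ^ m l)
  rw [map_div₀, map_prod]
  refine congrArg _ (Finset.prod_congr rfl fun l _ => ?_)
  rw [map_zpow₀, Pi.zero_apply, map_zero, sub_zero]
  exact congrArg (· ^ m l) (c.z l).symm

theorem ev_z (c : CBox A n) {t : Fin n → ℚ_[p]} (ht : t ∈ Bl p n) (i : Fin n) :
    c.C.z i ∈ (c.Q t).O ∧ ((c.Q t).ev (c.C.z i) = 0 ↔ t i = 0) := by
  rw [← c.z, ← c.ev t ht, c.b.sec t ht, map_eq_zero]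
  exact ⟨(c.O t ht _).1 (c.b.zm t ht i), Iff.rfl⟩

end Gen

variable {p : ℕ} [Fact p.Prime] [Algebra ℚ_[p] ℂ] [Algebra.IsAlgebraic ℚ_[p] ℂ]
  {f₀ : Po 3} {M : Mod 3} {a : M.ι} {f : (AK p).fix}

/-- Small balls in a box of points of one chart are adapted. -/
theorem ad_of (hM : M.OK f₀) (hN : M3E.Nb M) (he : (f : KK 3) = ip 3 f₀) (c : CBox (AK p) 3)
    (hA : ∀ t ∈ Bl p 3, LocOf (M.S.A a) (c.Q t))
    (hi : ∀ j, M.On (c.Q 0) j → (AK p).InvO (M.v j))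
    (hu : ∀ i, lq a (c.Q 0) i ≠ none → (c.Q 0).ev (c.C.z i / (cq hM a (c.Q 0)).z i) ≠ 0) :
    c.Ev fun c' => Ad M f c' (lq a (c.Q 0)) := by
  have hQ := hA 0 zero_Bl
  have T := pt3 hM hN hQ
  have hC := rg0 c
  have hj : (c.Q 0).ev ((co 3).jac (cq hM a (c.Q 0)) /
      (cq hM a (c.Q 0)).mon fun i => (lq a (c.Q 0) i).elim 0 M.kk) ≠ 0 :=
    unit hM hQ (cht_jac hM a)
  have k1 : ∀ i j, c.Ev fun c' => lq a (c.Q 0) i = some j → c'.On (M.v j) i := fun i j => by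
    by_cases e : lq a (c.Q 0) i = some j
    swap
    · exact ⟨0, fun _ _ _ _ h => absurd h e⟩
    have hd := dat_chg hC (T.dat i j e) (hu i (by simp [e]))
    rw [← sh_zero (p := p) c.C] at hd
    refine (Box.ev_of_nhds (c.on_near zero_Bl (chart_fg hM a) hA hd)).imp
      fun _ H e he c' hc _ t ht h0 => ?_
    rw [hc.C, sh_scl, hc.Q t ht]
    exact dat_scl (H e he t ht (by simp [h0])) _
  have k2 : ∀ j, ∀ᶠ s in 𝓝 (0 : Fin 3 → ℚ_[p]),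
      (c.Q s).ev (M.η a j) = 0 ↔ ∃ i, lq a (c.Q 0) i = some j ∧ s i = 0 := fun j => by
    by_cases e : ∃ i, lq a (c.Q 0) i = some j
    · obtain ⟨i, e⟩ := e
      have h1 := hu i (by simp [e])
      rw [cq_z hM e, ← M.S.η_some a j i (lq_iff.1 e).1] at h1
      filter_upwards [c.near_ne zero_Bl h1, Bl_nhds zero_Bl] with s h2 hs
      have h3 := (c.Q s).ev_mul _ (Loc.mem_of_ev h2) _ ((hA s hs).le (M3L.eta_mem a j))
      rw [show (M.η a j) = (M.S.η a j : KK 3) from rfl, div_mul_cancel₀ _ (Units.ne_zero _)] at h3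
      refine Iff.trans ?_ (((ev_z c hs i).2).trans
        ⟨fun h => ⟨i, e, h⟩, fun ⟨i', e', h⟩ => T.inj i' i j e' e ▸ h⟩)
      rw [h3, mul_eq_zero, or_iff_right h2]
    · exact (c.near_ne zero_Bl fun h => e ((T.on j).1 ((M3L.on_iff hM hQ j).2 h))).mono
        fun s h => iff_of_false h fun ⟨i, h, _⟩ => e ⟨i, h⟩
  have k3 : c.Ev fun c' => ∀ t ∈ Bl p 3, ∀ j, M.On (c'.Q t) j ↔
      ∃ i, lq a (c.Q 0) i = some j ∧ t i = 0 := by
    refine (Box.ev_of_nhds (eventually_all.2 k2)).imp fun _ H e he c' hc t ht j => ?_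
    rw [hc.Q t ht, M3L.on_iff hM (hA _ (aff_bl zero_Bl ht)), H e he t ht j]
    simp [(Fact.out : p.Prime).ne_zero]
  have k4 := ev_mon c (g := f) (u_mon M.aa hu (he ▸ T.fm))
  have k5 := ev_mon c (g := c.b.jac (xK p)) (u_mon M.kk hu (by
    rw [c.coe_jac (C₁ := co 3) fun _ => rfl, co_chain _ (cq hM a (c.Q 0)), mul_div_right_comm]
    exact u_mul hj (u_jac T.rg hC)))
  refine (((CBox.Ev.all fun i => CBox.Ev.all (k1 i)).and k3).and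
    (CBox.ev_box (k4.and k5))).mono fun e c' hc ⟨⟨h1, h2⟩, h3, α, h4⟩ =>
      ⟨T.inj, ⟨a, fun t ht => hc.Q t ht ▸ hA _ (aff_bl zero_Bl ht)⟩,
        fun i j q => hi j ((T.on j).2 ⟨i, q⟩), h1, h2, h3, ?_⟩
  have := ((c'.b.un_p.mono.pow e).pow 3).mul h4
  rw [← hc.sub.jac] at this
  exact ⟨_, this.congr rfl (by rw [smul_zero, smul_zero, zero_add])⟩

end XB

open XB

variable {p : ℕ} [Fact p.Prime] [Algebra ℚ_[p] ℂ] [Algebra.IsAlgebraic ℚ_[p] ℂ]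

theorem xBOX (hE : M3E.EOut) : XBOX p := by
  rintro f₀ W M f hM - he Q ⟨a, hQ⟩ hx -
  have hN := hE.nb 3 f₀ M hM.ok
  have T := pt3 hM.ok hN hQ
  have hs := hM.sep Q ⟨a, hQ⟩ hx
  have h1 : ∀ i, ∃ y, lq a Q i ≠ none →
      y ∈ (AK p).fix ∧ Q.ev (y / (cq hM.ok a Q).z i) ≠ 0 := fun i => by
    rcases e : lq a Q i with _ | j
    · exact ⟨0, fun h => absurd rfl h⟩
    have hd := T.dat i j e
    have hz := T.rg.st.z i
    refine (GA.loc_gen (A := AK p) Q (Co.ne _ i) fun σ g hg =>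
      hd.div _ ((hx.mem σ).2 (mul_mem hg hz)) (((hs j ((T.on j).2 ⟨i, e⟩)).mem σ).2
        (F_mul0 (hd.le g hg) (Or.inr hd.adp.vz.ge)))).imp fun y h _ => h
  choose y hy using h1
  obtain ⟨C, c1, c2, c3⟩ := P3X.fixc (AK p) _ Q {i | lq a Q i ≠ none} y T.rg hx hy
  obtain ⟨w, hw, hQw⟩ := (hM.pts Q).1 ⟨a, hQ⟩
  have hB : (AK p).Stb (M3B1.ch W w) := GA.Stb.adjoin (by
    rintro σ _ (⟨q, rfl⟩ | ⟨v, hv, rfl⟩)
    · exact Or.inl ⟨_, (gaK_ip σ q).symm⟩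
    · exact Or.inr ⟨v, hv, by rw [map_div₀, gaK_ip, gaK_ip, hM.fx v hv σ, hM.fx w hw σ]⟩)
  obtain ⟨e, c, rfl, d2, d3⟩ := cbox_at hB (M3B1.ch_fg hM.good.fin) hQw hx c1 c2
  obtain ⟨e', H⟩ := Box.ev_of_nhds (c.near_le zero_Bl (chart_fg hM.ok a) hQ.le)
  obtain ⟨c', hc⟩ := c.exists_sub zero_Bl e'
  have q := hc.zero
  obtain ⟨e'', c'', hc', H'⟩ := (ad_of (a := a) hM.ok hN he c' (fun t ht => by
    obtain ⟨b, hb⟩ := (hM.pts _).2 ⟨w, hw, d3 _ (aff_bl (e := e') zero_Bl ht)⟩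
    exact hc.Q t ht ▸ M3L.locOf_of_le hb (H e' le_rfl t ht)) (q ▸ hs) (by
      rw [q, hc.C, sh_zero, d2]
      exact fun i hi => u_scl _ (u_scl _ (c3 i hi ▸ (hy i hi).2)))).ex
  exact ⟨c'', _, H', hc'.zero.trans q⟩

end Pool.Agent.MP_5d9b3c_ag.P3D
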